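import Mathlib

set_option autoImplicit false

namespace Pool.Agent.MP_88e4f4_nt.TS

/-- ROW C2. Taylor expansion of `choose i l * a ^ (i - l)` around `x`.

Proof. If `i < l` both sides are `0` (`choose i l = 0`; on the right `choose i l' * choose l' l = 0` since
`l' ≤ i < l` or `l' > i`). Otherwise `a ^ (i - l) = ∑ t ≤ i - l, choose (i - l) t * (a - x) ^ t * x ^ (i - l - t)`
(`add_pow` for `a = (a - x) + x`), and `choose i l * choose (i - l) t = choose i (l + t) * choose (l + t) l`
(`Nat.choose_mul`); put `l' = l + t`. The terms with `l' < l` or `l' > i` vanish. -/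
theorem taylor_expand (i l D : ℕ) (hi : i < D) (a x : ℤ) :
    (i.choose l : ℤ) * a ^ (i - l) = ∑ l' ∈ Finset.range D,
      (i.choose l' : ℤ) * (l'.choose l : ℤ) * (a - x) ^ (l' - l) * x ^ (i - l') := by
  rcases Nat.lt_or_ge i l with h | h
  · rw [Nat.choose_eq_zero_of_lt h, Nat.cast_zero, zero_mul]
    symm
    refine Finset.sum_eq_zero fun l' _ => ?_
    rcases Nat.lt_or_ge l' l with h' | h'
    · rw [Nat.choose_eq_zero_of_lt h']
      simp
    · rw [Nat.choose_eq_zero_of_lt (lt_of_lt_of_le h h')]
      simp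
  · obtain ⟨e, rfl⟩ := Nat.exists_eq_add_of_le h
    obtain ⟨E, rfl⟩ := Nat.exists_eq_add_of_lt hi
    have hr : l + e + E + 1 = l + (e + 1) + E := by ring
    rw [hr, Finset.sum_range_add, Finset.sum_range_add]
    have h1 : ∑ l' ∈ Finset.range l, ((l + e).choose l' : ℤ) * (l'.choose l : ℤ) *
        (a - x) ^ (l' - l) * x ^ (l + e - l') = 0 := by
      refine Finset.sum_eq_zero fun l' hl' => ?_
      rw [Nat.choose_eq_zero_of_lt (Finset.mem_range.1 hl')]
      simp
    have h2 : ∑ t ∈ Finset.range E, ((l + e).choose (l + (e + 1) + t) : ℤ) *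
        ((l + (e + 1) + t).choose l : ℤ) * (a - x) ^ (l + (e + 1) + t - l) *
        x ^ (l + e - (l + (e + 1) + t)) = 0 := by
      refine Finset.sum_eq_zero fun t _ => ?_
      rw [Nat.choose_eq_zero_of_lt (show l + e < l + (e + 1) + t by omega)]
      simp
    rw [h1, h2, zero_add, add_zero]
    have h3 : a ^ (l + e - l) = ((a - x) + x) ^ e := by
      rw [Nat.add_sub_cancel_left, sub_add_cancel]
    rw [h3, add_pow, Finset.mul_sum]
    refine Finset.sum_congr rfl fun t ht => ?_
    have h4 : ((l + e).choose (l + t) : ℤ) * ((l + t).choose l : ℤ) =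
        ((l + e).choose l : ℤ) * (e.choose t : ℤ) := by
      have := Nat.choose_mul (n := l + e) (k := l + t) (s := l) (Nat.le_add_right l t)
      rw [Nat.add_sub_cancel_left, Nat.add_sub_cancel_left] at this
      exact_mod_cast this
    rw [h4, Nat.add_sub_cancel_left, Nat.add_sub_add_left]
    ring

end Pool.Agent.MP_88e4f4_nt.TS
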