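import Pool.Agent.MP_88e4f4_nt.TS.A1

set_option autoImplicit false

namespace Pool.Agent.MP_88e4f4_nt.TS

open Polynomial

theorem a2_coeff_prod {F ι : Type*} [Field F] (s : Finset ι) (f : ι → F[X]) (n : ι → ℕ)
    (h : ∀ i ∈ s, (f i).natDegree ≤ n i) :
    (∏ i ∈ s, f i).natDegree ≤ ∑ i ∈ s, n i ∧
      (∏ i ∈ s, f i).coeff (∑ i ∈ s, n i) = ∏ i ∈ s, (f i).coeff (n i) := by
  classical
  induction s using Finset.induction_on with
  | empty => simp
  | insert a s ha ih =>
    obtain ⟨h1, h2⟩ := ih (fun i hi => h i (Finset.mem_insert_of_mem hi))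
    have h3 := h a (Finset.mem_insert_self a s)
    rw [Finset.prod_insert ha, Finset.sum_insert ha, Finset.prod_insert ha]
    refine ⟨natDegree_mul_le_of_le h3 h1, ?_⟩
    rw [coeff_mul_add_eq_of_natDegree_le h3 h1, h2]

theorem a2_entry {F : Type*} [Field F] (B : F[X]) (l : ℕ) :
    (X ^ l * derivative^[l] B).natDegree ≤ B.natDegree ∧
      (X ^ l * derivative^[l] B).coeff B.natDegree =
        B.leadingCoeff * (B.natDegree.descFactorial l : F) := by
  constructor
  · by_cases hl : l ≤ B.natDegree
    · refine (natDegree_mul_le_of_le (natDegree_X_pow_le l)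
        (natDegree_iterate_derivative B l)).trans ?_
      omega
    · rw [iterate_derivative_eq_zero (not_le.1 hl), mul_zero, natDegree_zero]
      exact Nat.zero_le _
  · rw [coeff_X_pow_mul']
    by_cases hl : l ≤ B.natDegree
    · rw [if_pos hl, coeff_iterate_derivative, Nat.sub_add_cancel hl, nsmul_eq_mul, mul_comm]
      rfl
    · rw [if_neg hl, Nat.descFactorial_of_lt (not_le.1 hl), Nat.cast_zero, mul_zero]

/-- ROW A2. The Wronskian of nonzero polynomials of distinct degrees does not vanish.

Proof. Put `d i = (B i).natDegree`. Consider the matrix `M' i l = X ^ l * derivative^[l] (B i)`; its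
determinant is `X ^ (∑ l) * det (derivative^[l] (B i))` (`Matrix.det_mul_row`). Every entry `M' i l`
has `natDegree ≤ d i`, and its coefficient of degree `d i` is
`(d i).descFactorial l * (B i).leadingCoeff` (`coeff_iterate_derivative`, `coeff_X_pow_mul`; for
`l > d i` both sides are zero). So the coefficient of `det M'` in degree `∑ i, d i` is the
determinant of the matrix `(d i).descFactorial l * (B i).leadingCoeff`
(expand the determinant as a sum over permutations; the coefficient of degree `∑ d i` of a product
of polynomials of degrees `≤ d i` is the product of the coefficients,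
`Polynomial.coeff_prod_of_natDegree_le`), i.e. `∏ (B i).leadingCoeff` times the determinant of
`det_descFactorial_ne_zero`, which is not zero. -/
theorem wronskian_ne_zero_of_distinct {F : Type*} [Field F] [CharZero F] {r : ℕ} (B : Fin r → F[X])
    (h0 : ∀ i, B i ≠ 0) (hd : Function.Injective fun i => (B i).natDegree) :
    (Matrix.of fun i l : Fin r => derivative^[(l : ℕ)] (B i)).det ≠ 0 := by
  classical
  intro hdet
  have hne := det_descFactorial_ne_zero (F := F) (fun i => (B i).natDegree) hd
  have h1 : (Matrix.of fun i l : Fin r => (X : F[X]) ^ (l : ℕ) *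
      (Matrix.of fun i l : Fin r => derivative^[(l : ℕ)] (B i)) i l).det = 0 := by
    rw [Matrix.det_mul_row, hdet, mul_zero]
  have h2 : (Matrix.of fun i l : Fin r => (X : F[X]) ^ (l : ℕ) *
      (Matrix.of fun i l : Fin r => derivative^[(l : ℕ)] (B i)) i l).det.coeff
      (∑ i, (B i).natDegree) =
      (Matrix.of fun i l : Fin r => (B i).leadingCoeff *
        (Matrix.of fun i l : Fin r => (((B i).natDegree).descFactorial (l : ℕ) : F)) i l).det := by
    rw [Matrix.det_apply, Matrix.det_apply, finsetSum_coeff]
    refine Finset.sum_congr rfl fun σ _ => ?_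
    rw [Polynomial.coeff_smul]
    congr 1
    have h3 := a2_coeff_prod (Finset.univ : Finset (Fin r))
      (fun i => (X : F[X]) ^ (i : ℕ) * derivative^[(i : ℕ)] (B (σ i)))
      (fun i => (B (σ i)).natDegree) (fun i _ => (a2_entry (B (σ i)) i).1)
    rw [Equiv.sum_comp σ (fun i => (B i).natDegree)] at h3
    refine Eq.trans h3.2 ?_
    exact Finset.prod_congr rfl fun i _ => (a2_entry (B (σ i)) i).2
  rw [h1, coeff_zero, Matrix.det_mul_column] at h2
  have h4 : ∏ i, (B i).leadingCoeff ≠ 0 :=
    Finset.prod_ne_zero_iff.2 fun i _ => leadingCoeff_ne_zero.2 (h0 i)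
  exact (mul_ne_zero h4 hne) h2.symm

end Pool.Agent.MP_88e4f4_nt.TS
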