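import Mathlib

set_option autoImplicit false

namespace Pool.Agent.MP_88e4f4_nt.TS

open Polynomial

/-- ROW A4. Degree of the Wronskian. Proof: every term of the expansion of the determinant is, up to
sign, a product of `r` polynomials of degree `≤ D - 1` (`natDegree_iterate_derivative`,
`natDegree_sum_le_of_forall_le`, `natDegree_prod_le`). -/
theorem wronskian_natDegree_le {F : Type*} [Field F] {r D : ℕ} (B : Fin r → F[X])
    (hD : ∀ i, (B i).natDegree < D) :
    (Matrix.of fun i l : Fin r => derivative^[(l : ℕ)] (B i)).det.natDegree ≤ r * (D - 1) := by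
  classical
  rw [Matrix.det_apply]
  apply natDegree_sum_le_of_forall_le
  intro σ _
  have h1 : (∏ i : Fin r, (Matrix.of fun i l : Fin r => derivative^[(l : ℕ)] (B i)) (σ i) i).natDegree
      ≤ r * (D - 1) := by
    refine (natDegree_prod_le _ _).trans ?_
    have h2 : ∀ i ∈ (Finset.univ : Finset (Fin r)),
        ((Matrix.of fun i l : Fin r => derivative^[(l : ℕ)] (B i)) (σ i) i).natDegree ≤ D - 1 := by
      intro i _
      rw [Matrix.of_apply]
      have h3 := natDegree_iterate_derivative (B (σ i)) (i : ℕ)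
      have h4 := hD (σ i)
      omega
    refine (Finset.sum_le_sum h2).trans ?_
    simp
  rcases Int.units_eq_one_or (Equiv.Perm.sign σ) with h | h
  · rw [h, one_smul]
    exact h1
  · rw [h, Units.neg_smul, one_smul, natDegree_neg]
    exact h1

/-- ROW A4 (second part). If a nontrivial combination of the `B i` is divisible by `(X - β)^t` then the
Wronskian is divisible by `(X - β)^(t - (r - 1))`.

Proof. Let `v i₀ ≠ 0` and `E = ∑ C (v i) * B i`. Multiply the row `i₀` of the Wronskian matrix by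
`v i₀` and add `v i` times the row `i` for `i ≠ i₀`: the row `i₀` becomes `derivative^[l] E`
(`Matrix.det_updateRow_sum`-type lemma, e.g. `Matrix.det_updateRow_sum M i₀ c :
(M.updateRow i₀ (∑ k, c k • M k)).det = c i₀ • M.det`). Since
`derivative^[l] E` is divisible by `(X - β)^(t - l)` (`Polynomial.pow_sub_dvd_iterate_derivative_of_pow_dvd`
or by induction), hence by `(X - β)^(t - (r - 1))` for `l ≤ r - 1`, the determinant `v i₀ • W` is
divisible by `(X - β)^(t - (r - 1))`: write the row as `(X - β)^(t-(r-1))` times another row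
(`Matrix.det_updateRow_smul`). Finally `v i₀` is a nonzero constant. -/
theorem pow_dvd_wronskian {F : Type*} [Field F] {r t : ℕ} (B : Fin r → F[X])
    (v : Fin r → F) (hv : v ≠ 0) (β : F) (h : (X - C β) ^ t ∣ ∑ i, C (v i) * B i) :
    (X - C β) ^ (t - (r - 1)) ∣ (Matrix.of fun i l : Fin r => derivative^[(l : ℕ)] (B i)).det := by
  classical
  obtain ⟨i₀, hi₀⟩ : ∃ i, v i ≠ 0 := by
    by_contra hcon
    push Not at hcon
    exact hv (funext hcon)
  obtain ⟨M, hM⟩ : ∃ M : Matrix (Fin r) (Fin r) F[X],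
      M = Matrix.of fun i l : Fin r => derivative^[(l : ℕ)] (B i) := ⟨_, rfl⟩
  rw [← hM]
  have hrow : ∑ k, C (v k) • M k = fun l : Fin r => derivative^[(l : ℕ)] (∑ i, C (v i) * B i) := by
    funext l
    rw [Finset.sum_apply, iterate_derivative_sum]
    refine Finset.sum_congr rfl ?_
    intro k _
    rw [iterate_derivative_C_mul, Pi.smul_apply, smul_eq_mul, hM, Matrix.of_apply]
  have hdiv : ∀ l : Fin r, ∃ q : F[X], derivative^[(l : ℕ)] (∑ i, C (v i) * B i)
      = (X - C β) ^ (t - (r - 1)) * q := by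
    intro l
    have h1 := pow_sub_dvd_iterate_derivative_of_pow_dvd (l : ℕ) h
    have h2 : (X - C β) ^ (t - (r - 1)) ∣ (X - C β) ^ (t - (l : ℕ)) := by
      apply pow_dvd_pow
      have := l.2
      omega
    exact h2.trans h1
  choose q hq using hdiv
  have h3 := Matrix.det_updateRow_sum M i₀ (fun k => C (v k))
  have h4 : (fun l : Fin r => derivative^[(l : ℕ)] (∑ i, C (v i) * B i))
      = (X - C β) ^ (t - (r - 1)) • q := by
    funext l
    rw [hq l, Pi.smul_apply, smul_eq_mul]
  rw [hrow, h4, Matrix.det_updateRow_smul, smul_eq_mul] at h3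
  refine ⟨C (v i₀)⁻¹ * (M.updateRow i₀ q).det, ?_⟩
  have h5 : C (v i₀)⁻¹ * C (v i₀) = (1 : F[X]) := by
    rw [← C_mul, inv_mul_cancel₀ hi₀, C_1]
  calc M.det = (C (v i₀)⁻¹ * C (v i₀)) * M.det := by rw [h5, one_mul]
    _ = C (v i₀)⁻¹ * (C (v i₀) * M.det) := by ring
    _ = C (v i₀)⁻¹ * ((X - C β) ^ (t - (r - 1)) * (M.updateRow i₀ q).det) := by rw [h3]
    _ = (X - C β) ^ (t - (r - 1)) * (C (v i₀)⁻¹ * (M.updateRow i₀ q).det) := by ring

end Pool.Agent.MP_88e4f4_nt.TS
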