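import Mathlib

set_option autoImplicit false

namespace Pool.Agent.MP_88e4f4_nt.TS

open Polynomial

/-- ROW A1. The matrix of the numbers `d i (d i - 1) ... (d i - l + 1)` is invertible for distinct `d i`.

Proof. `(d : F).descFactorial`: the entry is the value at `(d i : F)` of the polynomial
`descPochhammer F l`, which is monic of degree `l` (`monic_descPochhammer`,
`natDegree_descPochhammer` / `descPochhammer_natDegree`, `descPochhammer_eval_eq_descFactorial`). By
`Matrix.det_eval_matrixOfPolynomials_eq_det_vandermonde` the determinant equals the Vandermonde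
determinant of the numbers `(d i : F)`, which is nonzero by `Matrix.det_vandermonde_ne_zero_iff`
(`d` is injective and `F` has characteristic zero). -/
theorem det_descFactorial_ne_zero {F : Type*} [Field F] [CharZero F] {r : ℕ} (d : Fin r → ℕ)
    (hd : Function.Injective d) :
    (Matrix.of fun i l : Fin r => ((d i).descFactorial (l : ℕ) : F)).det ≠ 0 := by
  have h := Matrix.det_eval_matrixOfPolynomials_eq_det_vandermonde (fun i => (d i : F))
    (fun l : Fin r => descPochhammer F (l : ℕ)) (fun i => descPochhammer_natDegree F (i : ℕ))
    (fun i => monic_descPochhammer F (i : ℕ))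
  have h2 : (Matrix.of fun i l : Fin r => ((d i).descFactorial (l : ℕ) : F)) =
      Matrix.of (fun i j : Fin r => (descPochhammer F (j : ℕ)).eval ((d i : F))) := by
    ext i j
    simp only [Matrix.of_apply]
    rw [descPochhammer_eval_eq_descFactorial]
  rw [h2, ← h, Matrix.det_vandermonde_ne_zero_iff]
  intro i j hij
  have hij2 : (d i : F) = (d j : F) := hij
  exact hd (by exact_mod_cast hij2)

end Pool.Agent.MP_88e4f4_nt.TS
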