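import Pool.Agent.MP_88e4f4_nt.TS.A2

set_option autoImplicit false

namespace Pool.Agent.MP_88e4f4_nt.TS

open Polynomial

/-- the members of a linearly independent family are not zero -/
theorem a3_ne_zero {F : Type*} [Field F] {r : ℕ} (B : Fin r → F[X])
    (hB : ∀ v : Fin r → F, ∑ i, C (v i) * B i = 0 → v = 0) (i : Fin r) : B i ≠ 0 := by
  classical
  intro h
  have h1 := hB (Pi.single i 1) (by
    apply Finset.sum_eq_zero
    intro k _
    by_cases hk : k = i
    · rw [hk, h, mul_zero]
    · rw [Pi.single_eq_of_ne hk, C_0, zero_mul])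
  have h2 := congrFun h1 i
  rw [Pi.single_eq_same, Pi.zero_apply] at h2
  exact one_ne_zero h2

/-- ROW A3. The Wronskian of linearly independent polynomials does not vanish (characteristic 0).

Proof. Strong induction on `∑ i, (B i).natDegree`. All `B i ≠ 0`. If the degrees are distinct use
`wronskian_ne_zero_of_distinct`. Otherwise there are `i ≠ j` with the same `natDegree`. Put
`c = (B i).leadingCoeff / (B j).leadingCoeff` and `B' = Function.update B i (B i - C c * B j)`.
The hypothesis (no nontrivial linear combination vanishes) holds for `B'`: a combination of `B'`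
with coefficients `v` is the combination of `B` with coefficients `v` changed at `j` into
`v j - c * v i`. The Wronskian matrix of `B'` is obtained from that of `B` by subtracting `c` times
row `j` from row `i` (`iterate_derivative_sub`, `iterate_derivative_C_mul`), so the determinants are
equal (`Matrix.det_updateRow_add_smul_self` or `Matrix.det_updateRow_sub...`). Degrees: if
`(B i).natDegree = 0` then `B i` and `B j` are constants and `B i - C c * B j = 0`, contradiction. So
`(B i).natDegree ≥ 1` and `(B i - C c * B j).natDegree < (B i).natDegree` (the leading terms cancel;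
`Polynomial.degree_sub_lt`), hence the sum of the degrees of `B'` is smaller. -/
theorem wronskian_ne_zero {F : Type*} [Field F] [CharZero F] {r : ℕ} (B : Fin r → F[X])
    (hB : ∀ v : Fin r → F, ∑ i, C (v i) * B i = 0 → v = 0) :
    (Matrix.of fun i l : Fin r => derivative^[(l : ℕ)] (B i)).det ≠ 0 := by
  classical
  induction hn : ∑ i, (B i).natDegree using Nat.strong_induction_on generalizing B with
  | _ n ih =>
  have h0 := a3_ne_zero B hB
  by_cases hd : Function.Injective fun i => (B i).natDegree
  · exact wronskian_ne_zero_of_distinct B h0 hd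
  obtain ⟨i, j, hij, hne⟩ : ∃ i j, (B i).natDegree = (B j).natDegree ∧ i ≠ j := by
    unfold Function.Injective at hd
    push Not at hd
    obtain ⟨i, j, h, h'⟩ := hd
    exact ⟨i, j, h, h'⟩
  obtain ⟨c, hc⟩ : ∃ c, c = (B i).leadingCoeff / (B j).leadingCoeff := ⟨_, rfl⟩
  have hlj : (B j).leadingCoeff ≠ 0 := leadingCoeff_ne_zero.2 (h0 j)
  have hli : (B i).leadingCoeff ≠ 0 := leadingCoeff_ne_zero.2 (h0 i)
  have hc0 : c ≠ 0 := by
    rw [hc]
    exact div_ne_zero hli hlj
  obtain ⟨B', hB'⟩ : ∃ B' : Fin r → F[X],
      ∀ k, B' k = B k - if k = i then C c * B j else 0 := ⟨_, fun _ => rfl⟩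
  have hB'i : B' i = B i - C c * B j := by rw [hB', if_pos rfl]
  have hB'k : ∀ k, k ≠ i → B' k = B k := by
    intro k hk
    rw [hB', if_neg hk, sub_zero]
  have hind : ∀ v : Fin r → F, ∑ k, C (v k) * B' k = 0 → v = 0 := by
    intro v hv
    obtain ⟨v', hv'⟩ : ∃ v' : Fin r → F, ∀ k, v' k = v k - if k = j then c * v i else 0 :=
      ⟨_, fun _ => rfl⟩
    have h1 : ∑ k, C (v' k) * B k = ∑ k, C (v k) * B' k := by
      have h2 : ∀ k, C (v' k) * B k
          = C (v k) * B k - if k = j then C (c * v i) * B j else 0 := by
        intro k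
        rw [hv']
        by_cases hk : k = j
        · rw [if_pos hk, if_pos hk, hk, C_sub, sub_mul]
        · rw [if_neg hk, if_neg hk, sub_zero, sub_zero]
      have h3 : ∀ k, C (v k) * B' k
          = C (v k) * B k - if k = i then C (c * v i) * B j else 0 := by
        intro k
        rw [hB']
        by_cases hk : k = i
        · rw [if_pos hk, if_pos hk, hk, C_mul]
          ring
        · rw [if_neg hk, if_neg hk, sub_zero, sub_zero]
      simp only [h2, h3, Finset.sum_sub_distrib, Finset.sum_ite_eq', Finset.mem_univ, if_true]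
    have h4 : v' = 0 := hB v' (h1.trans hv)
    have h5 : v i = 0 := by
      have h6 := congrFun h4 i
      rwa [hv', if_neg hne, sub_zero] at h6
    funext k
    have h6 := congrFun h4 k
    rw [hv', h5, mul_zero, ite_self, sub_zero] at h6
    exact h6
  have h0' := a3_ne_zero B' hind
  have hdeg : (B' i).natDegree < (B i).natDegree := by
    apply natDegree_lt_natDegree (h0' i)
    rw [hB'i]
    apply degree_sub_lt_left _ (h0 i)
    · rw [leadingCoeff_mul, leadingCoeff_C, hc, div_mul_cancel₀ _ hlj]
    · rw [degree_C_mul hc0, degree_eq_natDegree (h0 i), degree_eq_natDegree (h0 j), hij]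
  have hsum : ∑ k, (B' k).natDegree < n := by
    rw [← hn]
    apply Finset.sum_lt_sum
    · intro k _
      by_cases hk : k = i
      · rw [hk]
        exact hdeg.le
      · rw [hB'k k hk]
    · exact ⟨i, Finset.mem_univ _, hdeg⟩
  have hW := ih _ hsum B' hind rfl
  obtain ⟨M, hM⟩ : ∃ M : Matrix (Fin r) (Fin r) F[X],
      M = Matrix.of fun i l : Fin r => derivative^[(l : ℕ)] (B i) := ⟨_, rfl⟩
  have hM' : (Matrix.of fun i l : Fin r => derivative^[(l : ℕ)] (B' i))
      = M.updateRow i (M i + (-C c) • M j) := by
    ext1 k l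
    by_cases hk : k = i
    · rw [hk, Matrix.updateRow_self, Matrix.of_apply, hB'i, iterate_derivative_sub,
        iterate_derivative_C_mul, Pi.add_apply, Pi.smul_apply, smul_eq_mul, hM, Matrix.of_apply,
        Matrix.of_apply]
      ring
    · rw [Matrix.updateRow_ne hk, Matrix.of_apply, hB'k k hk, hM, Matrix.of_apply]
  rw [hM', Matrix.det_updateRow_add_smul_self M hne] at hW
  rw [← hM]
  exact hW

end Pool.Agent.MP_88e4f4_nt.TS
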