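import Pool.Agent.MP_88e4f4_nt.TS.A3
import Pool.Agent.MP_88e4f4_nt.TS.A4

set_option autoImplicit false

namespace Pool.Agent.MP_88e4f4_nt.TS

open Polynomial

/-- ROW A5. Sum of the orders of vanishing of elements of an `r`-dimensional space of polynomials.

Proof. Let `W` be the Wronskian. `W ≠ 0` (`wronskian_ne_zero`), `W.natDegree ≤ r (D - 1)`
(`wronskian_natDegree_le`), and for `i ∈ S` it is divisible by `(X - C (β i))^(t i - (r - 1))`
(`pow_dvd_wronskian`, with the coefficients `v i`). These are pairwise coprime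
(`β` is injective on `S`: `Polynomial.pairwise_coprime_X_sub_C`, `isCoprime_X_sub_C_of_isUnit_sub`,
`IsCoprime.pow`), so `∏ i ∈ S, (X - C (β i))^(t i - (r - 1)) ∣ W` (`Finset.prod_dvd_of_coprime`),
and comparing degrees (`natDegree_le_of_dvd`, `natDegree_prod_of_monic`)
`∑ i ∈ S, (t i - (r - 1)) ≤ r (D - 1)`. Finally `t i ≤ (t i - (r - 1)) + (r - 1)`. -/
theorem sum_orders_le {F ι : Type*} [Field F] [CharZero F] {r D : ℕ} (B : Fin r → F[X])
    (hB : ∀ v : Fin r → F, ∑ i, C (v i) * B i = 0 → v = 0) (hD : ∀ i, (B i).natDegree < D)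
    (S : Finset ι) (β : ι → F) (hβ : Set.InjOn β S) (t : ι → ℕ) (v : ι → Fin r → F)
    (hv : ∀ i ∈ S, v i ≠ 0)
    (h : ∀ i ∈ S, (X - C (β i)) ^ (t i) ∣ ∑ j, C (v i j) * B j) :
    ∑ i ∈ S, t i ≤ r * (D - 1) + S.card * (r - 1) := by
  classical
  have hW := wronskian_ne_zero B hB
  have hdeg := wronskian_natDegree_le B hD
  set W := (Matrix.of fun i l : Fin r => derivative^[(l : ℕ)] (B i)).det with hWdef
  have hdvd : ∏ i ∈ S, (X - C (β i)) ^ (t i - (r - 1)) ∣ W := by
    apply Finset.prod_dvd_of_coprime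
    · intro i hi j hj hij
      apply IsCoprime.pow
      apply isCoprime_X_sub_C_of_isUnit_sub
      rw [isUnit_iff_ne_zero, sub_ne_zero]
      exact fun hcon => hij (hβ hi hj hcon)
    · intro i hi
      exact pow_dvd_wronskian B (v i) (hv i hi) (β i) (h i hi)
  have h1 := natDegree_le_of_dvd hdvd hW
  rw [natDegree_prod_of_monic _ _ (fun i _ => (monic_X_sub_C (β i)).pow _)] at h1
  have h2 : ∑ i ∈ S, ((X - C (β i)) ^ (t i - (r - 1))).natDegree = ∑ i ∈ S, (t i - (r - 1)) := by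
    refine Finset.sum_congr rfl fun i _ => ?_
    rw [(monic_X_sub_C (β i)).natDegree_pow, natDegree_X_sub_C, mul_one]
  rw [h2] at h1
  have h3 : ∑ i ∈ S, t i ≤ ∑ i ∈ S, (t i - (r - 1)) + S.card * (r - 1) := by
    rw [← smul_eq_mul, ← Finset.sum_const, ← Finset.sum_add_distrib]
    refine Finset.sum_le_sum fun i _ => ?_
    omega
  omega

end Pool.Agent.MP_88e4f4_nt.TS
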