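import Pool.Agent.MP_88e4f4_nt.TS.A5

set_option autoImplicit false

namespace Pool.Agent.MP_88e4f4_nt.TS

open Polynomial

/-- ROW A6. Zero estimate, the case without exceptional points.

Proof. Let `𝓑` be the span over `F` of the polynomials `A j`, `j < k + 1`; it has a basis
`B : Fin r → F[X]` with `r ≤ k + 1` (e.g. `exists_linearIndependent'`, or
`Module.finBasis F 𝓑` with `Module.finrank F 𝓑 ≤ k + 1` by `finrank_range_le_card`). The elements of
`𝓑` are polynomials of degree `< D` (`Polynomial.degreeLT`, or induction on the span). For `i ∈ S` the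
polynomial `∑ j, C (γ i) ^ j * A j` is a nonzero element of `𝓑`, so it is `∑ C (v i j) * B j` with
`v i ≠ 0`. Apply `sum_orders_le` (if `S` is nonempty then `r ≥ 1`, if `S` is empty the claim is
trivial) and `r ≤ k + 1`. -/
theorem zero_est_aux {F ι : Type*} [Field F] [CharZero F] {k D : ℕ} (A : ℕ → F[X])
    (hA : ∀ j < k + 1, (A j).natDegree < D)
    (S : Finset ι) (β γ : ι → F) (hβ : Set.InjOn β S) (t : ι → ℕ)
    (h : ∀ i ∈ S, (X - C (β i)) ^ (t i) ∣ ∑ j ∈ Finset.range (k + 1), C (γ i) ^ j * A j)
    (hne : ∀ i ∈ S, ∑ j ∈ Finset.range (k + 1), C (γ i) ^ j * A j ≠ 0) :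
    ∑ i ∈ S, t i ≤ (k + 1) * (D - 1) + S.card * k := by
  classical
  have hD0 : 0 < D := lt_of_le_of_lt (Nat.zero_le _) (hA 0 (Nat.succ_pos k))
  set W : Submodule F F[X] := Submodule.span F (Set.range (fun j : Fin (k + 1) => A j)) with hW
  have hfin : Module.finrank F W ≤ k + 1 := by
    have h1 := finrank_range_le_card (R := F) (fun j : Fin (k + 1) => A j)
    rw [Fintype.card_fin] at h1
    exact h1
  have hWD : W ≤ degreeLT F D := by
    rw [hW, Submodule.span_le]
    rintro _ ⟨j, rfl⟩
    have h1 := hA j j.2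
    show A j ∈ degreeLT F D
    rw [mem_degreeLT]
    exact degree_le_natDegree.trans_lt (by exact_mod_cast h1)
  haveI : FiniteDimensional F W := FiniteDimensional.span_of_finite F (Set.finite_range _)
  set b := Module.finBasis F W with hb
  have hmem : ∀ i, ∑ j ∈ Finset.range (k + 1), C (γ i) ^ j * A j ∈ W := by
    intro i
    refine Submodule.sum_mem _ fun j hj => ?_
    rw [← C_pow, ← smul_eq_C_mul]
    exact Submodule.smul_mem _ _ (Submodule.subset_span ⟨⟨j, Finset.mem_range.1 hj⟩, rfl⟩)
  have hsum : ∀ v : Fin (Module.finrank F W) → F, ∑ i, C (v i) * (b i : F[X]) =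
      ((∑ i, v i • b i : W) : F[X]) := by
    intro v
    rw [Submodule.coe_sum]
    refine Finset.sum_congr rfl fun i _ => ?_
    rw [Submodule.coe_smul, smul_eq_C_mul]
  have key := sum_orders_le (F := F) (r := Module.finrank F W) (D := D) (fun i => (b i : F[X]))
    (fun v hv => by
      have h1 : (∑ i, v i • b i : W) = 0 := by
        apply Subtype.ext
        rw [← hsum v]
        exact hv
      exact funext fun i => (Fintype.linearIndependent_iff.1 b.linearIndependent) v h1 i)
    (fun i => by
      have h1 : ((b i : W) : F[X]) ≠ 0 := fun h => b.ne_zero i (Subtype.ext h)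
      have h2 := mem_degreeLT.1 (hWD (b i).2)
      exact (natDegree_lt_iff_degree_lt h1).2 h2)
    S β hβ t (fun i => b.repr ⟨_, hmem i⟩)
    (fun i hi h0 => by
      have h1 : (⟨_, hmem i⟩ : W) = 0 := by
        have h2 : b.repr ⟨_, hmem i⟩ = 0 := DFunLike.coe_injective h0
        exact (LinearEquiv.map_eq_zero_iff _).1 h2
      exact hne i hi (congrArg Subtype.val h1))
    (fun i hi => by
      rw [hsum, b.sum_repr]
      exact h i hi)
  refine key.trans ?_
  have h1 : Module.finrank F W - 1 ≤ k := by omega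
  exact Nat.add_le_add (Nat.mul_le_mul_right _ hfin) (Nat.mul_le_mul_left _ h1)

end Pool.Agent.MP_88e4f4_nt.TS
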