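import Pool.Agent.MP_88e4f4_nt.TS.A6

set_option autoImplicit false

namespace Pool.Agent.MP_88e4f4_nt.TS

open Polynomial

theorem a7_synth {F : Type*} [Field F] (A B : ℕ → F[X]) (g c : F[X]) (n : ℕ)
    (h : ∀ j < n, B j = A (j + 1) + g * B (j + 1)) :
    A 0 + g * B 0 + (c - g) * ∑ j ∈ Finset.range n, c ^ j * B j =
      ∑ j ∈ Finset.range (n + 1), c ^ j * A j + c ^ n * (g * B n) := by
  induction n with
  | zero => simp
  | succ n ih =>
    have h1 := ih fun j hj => h j (by omega)
    rw [Finset.sum_range_succ, Finset.sum_range_succ (fun j => c ^ j * A j) (n + 1)]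
    have h2 := h n (by omega)
    linear_combination h1 + (c - g) * c ^ n * h2 - c ^ n * (c - g) * h2 + c ^ (n + 1) * h2

/-- ROW A7. Zero estimate (Siegel, Dyson).

Proof. Induction on `k` (for all `A`, `S`). If `∑ j, C (γ i) ^ j * A j ≠ 0` for all `i ∈ S`, this is
`zero_est_aux`. Otherwise there is `i₀ ∈ S` with `∑ j < k+1, C (γ i₀) ^ j * A j = 0`; put
`g = C (γ i₀)`. If `k = 0` then `A 0 = 0`, contradiction. If `k = k' + 1`, put
`A' j = ∑ i ∈ range (k + 1) with i > j, g ^ (i - j - 1) * A i` for `j < k`; then for every `c`: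
`∑ j < k+1, c ^ j * A j = (c - g) * ∑ j < k, c ^ j * A' j` (synthetic division by `V - g`:
`A j = A' (j-1) - g * A' j` with `A' (-1) = ∑ g ^ i A i = 0` and `A' k = 0`). The `A' j` have degree
`< D` and are not all zero (otherwise all `A j = 0`). For `i ∈ S.erase i₀` we have
`γ i ≠ γ i₀`, `C (γ i) - g` is a unit, so `(X - C (β i)) ^ (t i)` divides
`∑ j < k, C (γ i) ^ j * A' j`. By induction
`∑ i ∈ S.erase i₀, t i ≤ k (D - 1) + (S.card - 1) (k - 1)`, and `t i₀ ≤ D`. The total is at most
`k (D - 1) + (S.card - 1) (k - 1) + D ≤ (k + 1) (D - 1) + S.card * k` (here `D ≥ 1`, as `A 0` has degree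
`< D`, and `S.card ≥ 1`, `k ≥ 1`). -/
theorem zero_est {F ι : Type*} [Field F] [CharZero F] {D : ℕ} (k : ℕ) (A : ℕ → F[X])
    (hA : ∀ j < k + 1, (A j).natDegree < D) (hA0 : ∃ j < k + 1, A j ≠ 0)
    (S : Finset ι) (β γ : ι → F) (hβ : Set.InjOn β S) (hγ : Set.InjOn γ S) (t : ι → ℕ)
    (ht : ∀ i ∈ S, t i ≤ D)
    (h : ∀ i ∈ S, (X - C (β i)) ^ (t i) ∣ ∑ j ∈ Finset.range (k + 1), C (γ i) ^ j * A j) :
    ∑ i ∈ S, t i ≤ (k + 1) * (D - 1) + S.card * k := by
  classical
  induction k generalizing A S with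
  | zero =>
    refine zero_est_aux A hA S β γ hβ t h fun i _ h0 => ?_
    obtain ⟨j, hj, hne⟩ := hA0
    have : j = 0 := by omega
    subst this
    apply hne
    simpa using h0
  | succ k ih =>
    by_cases hall : ∀ i ∈ S, ∑ j ∈ Finset.range (k + 1 + 1), C (γ i) ^ j * A j ≠ 0
    · exact zero_est_aux A hA S β γ hβ t h hall
    push Not at hall
    obtain ⟨i₀, hi₀, h0⟩ := hall
    have hD0 : 0 < D := lt_of_le_of_lt (Nat.zero_le _) (hA 0 (Nat.succ_pos _))
    set g : F[X] := C (γ i₀) with hg
    set B : ℕ → F[X] := fun j => ∑ l ∈ Finset.range (k + 1 - j), g ^ l * A (j + 1 + l) with hB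
    have hrec : ∀ j < k + 1, B j = A (j + 1) + g * B (j + 1) := by
      intro j hj
      have e1 : k + 1 - j = (k + 1 - (j + 1)) + 1 := by omega
      simp only [hB]
      rw [e1, Finset.sum_range_succ', Finset.mul_sum, add_comm]
      congr 1
      · simp
      · refine Finset.sum_congr rfl fun l _ => ?_
        have e2 : j + 1 + (l + 1) = j + 1 + 1 + l := by omega
        rw [e2]
        ring
    have hlast : B (k + 1) = 0 := by
      simp only [hB]
      simp
    have hfirst : A 0 + g * B 0 = 0 := by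
      have h1 := a7_synth A B g g (k + 1) hrec
      rw [sub_self, zero_mul, add_zero, h0, hlast, mul_zero, mul_zero, add_zero] at h1
      exact h1
    have hfac : ∀ c : F[X], ∑ j ∈ Finset.range (k + 1 + 1), c ^ j * A j =
        (c - g) * ∑ j ∈ Finset.range (k + 1), c ^ j * B j := by
      intro c
      have h1 := a7_synth A B g c (k + 1) hrec
      rw [hfirst, hlast, mul_zero, mul_zero, add_zero, zero_add] at h1
      exact h1.symm
    have hBD : ∀ j < k + 1, (B j).natDegree < D := by
      intro j _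
      have h1 : (B j).natDegree ≤ D - 1 := by
        simp only [hB]
        refine natDegree_sum_le_of_forall_le _ _ fun l hl => ?_
        have hl' := Finset.mem_range.1 hl
        have h2 := hA (j + 1 + l) (by omega)
        rw [hg, ← C_pow]
        refine (natDegree_C_mul_le _ _).trans ?_
        omega
      omega
    have hB0 : ∃ j < k + 1, B j ≠ 0 := by
      by_contra hcon
      push Not at hcon
      have hcon' : ∀ j, j ≤ k + 1 → B j = 0 := by
        intro j hj
        rcases Nat.lt_or_ge j (k + 1) with h1 | h1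
        · exact hcon j h1
        · have : j = k + 1 := by omega
          rw [this, hlast]
      obtain ⟨j, hj, hne⟩ := hA0
      apply hne
      rcases j with - | j
      · rw [hcon' 0 (by omega), mul_zero, add_zero] at hfirst
        exact hfirst
      · have h1 := hrec j (by omega)
        rw [hcon' j (by omega), hcon' (j + 1) (by omega), mul_zero, add_zero] at h1
        exact h1.symm
    have h1 := ih B hBD hB0 (S.erase i₀) (hβ.mono (Finset.coe_subset.2 (Finset.erase_subset _ _)))
      (hγ.mono (Finset.coe_subset.2 (Finset.erase_subset _ _)))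
      (fun i hi => ht i (Finset.mem_of_mem_erase hi))
      (fun i hi => by
        have hiS := Finset.mem_of_mem_erase hi
        have hne : γ i - γ i₀ ≠ 0 := by
          intro h2
          exact Finset.ne_of_mem_erase hi (hγ hiS hi₀ (sub_eq_zero.1 h2))
        have h2 := h i hiS
        rw [hfac, hg, ← C_sub] at h2
        exact (IsUnit.dvd_mul_left (isUnit_C.2 (isUnit_iff_ne_zero.2 hne))).1 h2)
    have h2 := Finset.add_sum_erase S t hi₀
    have h3 := ht i₀ hi₀
    have h4 := Finset.card_erase_of_mem hi₀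
    have h5 : 0 < S.card := Finset.card_pos.2 ⟨i₀, hi₀⟩
    rw [h4] at h1
    obtain ⟨d, rfl⟩ : ∃ d, D = d + 1 := ⟨D - 1, by omega⟩
    obtain ⟨n, hn⟩ : ∃ n, S.card = n + 1 := ⟨S.card - 1, by omega⟩
    rw [hn] at h1 ⊢
    simp only [Nat.add_sub_cancel] at h1 ⊢
    have e1 : (k + 1 + 1) * d = (k + 1) * d + d := by ring
    have e2 : (n + 1) * (k + 1) = n * k + n + k + 1 := by ring
    omega

end Pool.Agent.MP_88e4f4_nt.TS
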