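import Mathlib

set_option autoImplicit false

namespace Pool.Agent.MP_88e4f4_nt.TS

open Polynomial

/-- ROW B1. The trinomial `(y - 1) X ^ m + X - y` has `m` distinct complex roots.

Proof. Let `f = C (y - 1) * X ^ m + X - C y ∈ ℂ[X]`. It has degree `m` (`y - 1 ≠ 0`, `m ≥ 2`). It has no
multiple root: if `f(β) = f'(β) = 0` then `m (y - 1) β ^ (m - 1) = - 1` and
`(y - 1) β ^ m + β = y`; multiplying the second equation by `m` gives
`- β + m β = m y`, so `β = m y / (m - 1)` is a positive real number, and then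
`m (y - 1) β ^ (m - 1)` is a nonnegative real number, it cannot be `- 1`. So `f` is separable
(`Polynomial.separable_of_aeval_derivative_ne_zero`-type statements, or directly: a root of
multiplicity `≥ 2` is a root of the derivative, `one_lt_rootMultiplicity_iff_isRoot`), its multiset of
roots has no duplicates and (`ℂ` is algebraically closed) `m` elements: take `S = f.roots.toFinset`
(`IsAlgClosed.card_roots_eq_natDegree`/`splits_iff_card_roots`). -/
theorem exists_roots {y m : ℕ} (hy : 2 ≤ y) (hm : 2 ≤ m) :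
    ∃ S : Finset ℂ, S.card = m ∧ ∀ β ∈ S, ((y : ℂ) - 1) * β ^ m + β - y = 0 := by
  classical
  set f : ℂ[X] := C ((y : ℂ) - 1) * X ^ m + X - C (y : ℂ) with hf
  have hyr : (2 : ℝ) ≤ y := by exact_mod_cast hy
  have hmr : (2 : ℝ) ≤ m := by exact_mod_cast hm
  have hy1 : ((y : ℂ) - 1) ≠ 0 := by
    intro h
    have h2 : ((y : ℝ) - 1 : ℝ) = 0 := by exact_mod_cast h
    linarith
  have hdeg : f.natDegree = m := by
    have h1 : (C ((y : ℂ) - 1) * X ^ m).natDegree = m := natDegree_C_mul_X_pow m _ hy1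
    have h2 : f = C ((y : ℂ) - 1) * X ^ m + (X - C (y : ℂ)) := by rw [hf]; ring
    rw [h2, natDegree_add_eq_left_of_natDegree_lt, h1]
    rw [h1, natDegree_X_sub_C]
    omega
  have hf0 : f ≠ 0 := by
    intro h
    rw [h, natDegree_zero] at hdeg
    omega
  have hev : ∀ β : ℂ, f.eval β = ((y : ℂ) - 1) * β ^ m + β - y := by
    intro β
    rw [hf]
    simp
  have hder : ∀ β : ℂ, (derivative f).eval β = ((y : ℂ) - 1) * (m * β ^ (m - 1)) + 1 := by
    intro β
    rw [hf]
    simp [derivative_X_pow]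
  have hsimple : ∀ β : ℂ, f.eval β = 0 → (derivative f).eval β ≠ 0 := by
    intro β h1 h2
    rw [hev] at h1
    rw [hder] at h2
    have hmm : β ^ m = β ^ (m - 1) * β := by
      rw [← pow_succ]
      congr 1
      omega
    have h3 : ((m : ℂ) - 1) * β = m * y := by
      rw [hmm] at h1
      linear_combination (m : ℂ) * h1 - β * h2
    have hm1 : ((m : ℂ) - 1) ≠ 0 := by
      intro h
      have h4 : ((m : ℝ) - 1 : ℝ) = 0 := by exact_mod_cast h
      linarith
    have h4 : β = (((m : ℝ) * y / ((m : ℝ) - 1) : ℝ) : ℂ) := by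
      push_cast
      rw [eq_div_iff hm1, mul_comm]
      exact h3
    have h5 : ((((y : ℝ) - 1) * (m * ((m : ℝ) * y / ((m : ℝ) - 1)) ^ (m - 1)) + 1 : ℝ) : ℂ) = 0 := by
      rw [h4] at h2
      exact_mod_cast h2
    have h6 : ((y : ℝ) - 1) * (m * ((m : ℝ) * y / ((m : ℝ) - 1)) ^ (m - 1)) + 1 = 0 := by
      exact_mod_cast h5
    have h7 : 0 ≤ ((y : ℝ) - 1) * (m * ((m : ℝ) * y / ((m : ℝ) - 1)) ^ (m - 1)) := by
      have h8 : (0 : ℝ) ≤ (m : ℝ) * y / ((m : ℝ) - 1) := by
        apply div_nonneg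
        · positivity
        · linarith
      have h9 : (0 : ℝ) ≤ (y : ℝ) - 1 := by linarith
      positivity
    linarith
  have hnd : f.roots.Nodup := by
    rw [Multiset.nodup_iff_count_le_one]
    intro β
    rw [count_roots]
    by_contra hlt
    push Not at hlt
    have h1 := (one_lt_rootMultiplicity_iff_isRoot hf0).1 hlt
    exact hsimple β h1.1 h1.2
  have hcard : f.roots.card = m := by
    rw [← hdeg]
    exact (IsAlgClosed.splits f).natDegree_eq_card_roots.symm
  refine ⟨f.roots.toFinset, ?_, ?_⟩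
  · rw [Multiset.toFinset_card_of_nodup hnd, hcard]
  · intro β hβ
    rw [Multiset.mem_toFinset, mem_roots hf0] at hβ
    rw [← hev]
    exact hβ

end Pool.Agent.MP_88e4f4_nt.TS
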