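import Mathlib

set_option autoImplicit false

namespace Pool.Agent.MP_88e4f4_nt.TS

open Polynomial

/-- ROW B2. Vanishing of the first `T` Taylor coefficients at `b`.

Proof. Let `E = ∑ j < k+1, C g ^ j * ∑ i < D, C (c i j) * X ^ i`. The `l`-th Taylor coefficient of `E` at
`b` is `(taylor b E).coeff l = (hasseDeriv l E).eval b = ∑ i, ∑ j, c i j * choose i l * b ^ (i - l) * g ^ j`
(`Polynomial.taylor_coeff`, `hasseDeriv_monomial`/`hasseDeriv_apply`). If it vanishes for all `l < T`, then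
`X ^ T ∣ taylor b E` (`X_pow_dvd_iff`), and shifting back `(X - C b) ^ T ∣ E`
(`taylor (-b)` is the inverse ring homomorphism: `taylor_taylor`, `taylor_X`;
alternatively `Polynomial.sum_taylor_eq`). -/
theorem pow_dvd_of_taylor {F : Type*} [Field F] {D k T : ℕ} (c : ℕ → ℕ → F) (b g : F)
    (h : ∀ l < T, ∑ i ∈ Finset.range D, ∑ j ∈ Finset.range (k + 1),
      c i j * (i.choose l : F) * b ^ (i - l) * g ^ j = 0) :
    (X - C b) ^ T ∣ ∑ j ∈ Finset.range (k + 1), C g ^ j *
      (∑ i ∈ Finset.range D, C (c i j) * X ^ i) := by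
  classical
  rw [Polynomial.X_sub_C_pow_dvd_iff, Polynomial.X_pow_dvd_iff]
  intro l hl
  have h1 := h l hl
  rw [← Polynomial.taylor_apply, Polynomial.taylor_coeff]
  rw [← h1, Finset.sum_comm]
  rw [map_sum, Polynomial.eval_finset_sum]
  refine Finset.sum_congr rfl fun j _ => ?_
  rw [← C_pow, ← smul_eq_C_mul, map_smul, Polynomial.eval_smul, map_sum, Polynomial.eval_finset_sum,
    smul_eq_mul, Finset.mul_sum]
  refine Finset.sum_congr rfl fun i _ => ?_
  rw [C_mul_X_pow_eq_monomial, Polynomial.hasseDeriv_monomial, Polynomial.eval_monomial]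
  ring

end Pool.Agent.MP_88e4f4_nt.TS
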