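import Pool.Agent.MP_88e4f4_nt.TS.A7
import Pool.Agent.MP_88e4f4_nt.TS.B1
import Pool.Agent.MP_88e4f4_nt.TS.B2

set_option autoImplicit false

namespace Pool.Agent.MP_88e4f4_nt.TS

open Polynomial

/-- ROW B3. The zero estimate for our functionals.

Proof. Suppose some `c i₀ j₀ ≠ 0` with `i₀ < D`, `j₀ < k + 1`. Work over `ℂ` with
`A j = ∑ i ∈ range D, C (c i j : ℂ) * X ^ i`, of degree `< D`, not all zero. Let `S₀` be the set of the `m`
roots of `exists_roots`, `ι = Option ℂ`, `S = insert none (S₀.image some)` (`m + 1` elements),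
`β none = a`, `β (some b) = b`, `γ none = x`, `γ (some b) = b`, `t none = N`, `t (some b) = T`.
`β` and `γ` are injective on `S` because `a` and `x` are not roots: `(y - 1) a ^ m + a - y > 0` for
`a ≥ y` (`y ≥ 2`). The divisibilities follow from `pow_dvd_of_taylor` with `b = g = β` and the
hypothesis `hα` (`β ^ (i - l + j) = β ^ (i - l) * β ^ j`), and with `b = a`, `g = x` and `hx`. By
`zero_est`, `m T + N ≤ (k + 1) (D - 1) + (m + 1) k`, a contradiction. -/
theorem kernel_zero {y m a x k D T N : ℕ} (hy : 2 ≤ y) (hm : 2 ≤ m) (hya : y ≤ a) (hyx : y ≤ x)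
    (hTD : T ≤ D) (hND : N ≤ D) (hz : (k + 1) * (D - 1) + (m + 1) * k < m * T + N)
    (c : ℕ → ℕ → ℚ)
    (hα : ∀ β : ℂ, ((y : ℂ) - 1) * β ^ m + β - y = 0 → ∀ l < T,
      ∑ i ∈ Finset.range D, ∑ j ∈ Finset.range (k + 1),
        (c i j : ℂ) * (i.choose l : ℂ) * β ^ (i - l + j) = 0)
    (hx : ∀ l < N, ∑ i ∈ Finset.range D, ∑ j ∈ Finset.range (k + 1),
        c i j * (i.choose l : ℚ) * (a : ℚ) ^ (i - l) * (x : ℚ) ^ j = 0) :
    ∀ i < D, ∀ j < k + 1, c i j = 0 := by
  by_contra hcon
  push Not at hcon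
  obtain ⟨i₀, hi₀, j₀, hj₀, hc₀⟩ := hcon
  have hD : 0 < D := by omega
  obtain ⟨S₀, hS₀card, hS₀⟩ := exists_roots hy hm
  -- the polynomials
  set A : ℕ → ℂ[X] := fun j => ∑ i ∈ Finset.range D, C ((c i j : ℚ) : ℂ) * X ^ i with hAdef
  have hA : ∀ j < k + 1, (A j).natDegree < D := by
    intro j _
    have h1 : (A j).natDegree ≤ D - 1 := by
      refine natDegree_sum_le_of_forall_le _ _ ?_
      intro i hi
      have hi' := Finset.mem_range.mp hi
      exact le_trans (natDegree_C_mul_X_pow_le _ _) (by omega)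
    omega
  have hA0 : ∃ j < k + 1, A j ≠ 0 := by
    refine ⟨j₀, hj₀, ?_⟩
    intro h0
    have h1 : (A j₀).coeff i₀ = ((c i₀ j₀ : ℚ) : ℂ) := by
      simp only [hAdef, finsetSum_coeff, coeff_C_mul, coeff_X_pow]
      rw [Finset.sum_eq_single i₀]
      · simp
      · intro b _ hb
        simp [Ne.symm hb]
      · intro hn
        exact absurd (Finset.mem_range.mpr hi₀) hn
    rw [h0, coeff_zero] at h1
    apply hc₀
    exact_mod_cast h1.symm
  -- a and x are not roots
  have hnroot : ∀ u : ℕ, y ≤ u → ((y : ℂ) - 1) * (u : ℂ) ^ m + u - y ≠ 0 := by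
    intro u hu h0
    have h1 : ((y : ℝ) - 1) * (u : ℝ) ^ m + u - y = 0 := by
      exact_mod_cast h0
    have hy' : (2 : ℝ) ≤ y := by exact_mod_cast hy
    have hu' : (y : ℝ) ≤ u := by exact_mod_cast hu
    have hpos : 0 < (u : ℝ) ^ m := pow_pos (by linarith) m
    have : 0 < ((y : ℝ) - 1) * (u : ℝ) ^ m := mul_pos (by linarith) hpos
    linarith
  let β : Option ℂ → ℂ := fun o => o.elim (a : ℂ) id
  let γ : Option ℂ → ℂ := fun o => o.elim (x : ℂ) id
  let t : Option ℂ → ℕ := fun o => o.elim N (fun _ => T)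
  have hinj : ∀ u : ℕ, y ≤ u → Set.InjOn (fun o : Option ℂ => o.elim (u : ℂ) id)
      (Finset.insertNone S₀ : Finset (Option ℂ)) := by
    intro u hu o ho o' ho' h
    have ho2 : o ∈ Finset.insertNone S₀ := ho
    have ho2' : o' ∈ Finset.insertNone S₀ := ho'
    rw [Finset.mem_insertNone] at ho2 ho2'
    cases o with
    | none =>
      cases o' with
      | none => rfl
      | some b' =>
        exfalso
        have hb' := hS₀ b' (ho2' b' rfl)
        have h2 : (u : ℂ) = b' := h
        rw [← h2] at hb'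
        exact hnroot u hu hb'
    | some b =>
      cases o' with
      | none =>
        exfalso
        have hb := hS₀ b (ho2 b rfl)
        have h2 : b = (u : ℂ) := h
        rw [h2] at hb
        exact hnroot u hu hb
      | some b' =>
        have h2 : b = b' := h
        rw [h2]
  have hmain := zero_est k A hA hA0 (Finset.insertNone S₀) β γ (hinj a hya) (hinj x hyx) t ?_ ?_
  · rw [Finset.card_insertNone, hS₀card, Finset.sum_insertNone] at hmain
    have h3 : ∑ b ∈ S₀, t (some b) = m * T := by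
      have : ∀ b ∈ S₀, t (some b) = T := fun _ _ => rfl
      rw [Finset.sum_congr rfl this, Finset.sum_const, hS₀card, smul_eq_mul]
    have h4 : t none = N := rfl
    rw [h3, h4] at hmain
    omega
  · intro o _
    cases o with
    | none => exact hND
    | some b => exact hTD
  · intro o ho
    rw [Finset.mem_insertNone] at ho
    cases o with
    | none =>
      change (X - C (a : ℂ)) ^ N ∣ ∑ j ∈ Finset.range (k + 1), C (x : ℂ) ^ j * A j
      apply pow_dvd_of_taylor (fun i j => ((c i j : ℚ) : ℂ)) (a : ℂ) (x : ℂ)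
      intro l hl
      have h5 := hx l hl
      exact_mod_cast h5
    | some b =>
      have hb := hS₀ b (ho b rfl)
      change (X - C b) ^ T ∣ ∑ j ∈ Finset.range (k + 1), C b ^ j * A j
      apply pow_dvd_of_taylor (fun i j => ((c i j : ℚ) : ℂ)) b b
      intro l hl
      rw [← hα b hb l hl]
      refine Finset.sum_congr rfl fun i _ => Finset.sum_congr rfl fun j _ => ?_
      rw [pow_add]
      ring

end Pool.Agent.MP_88e4f4_nt.TS
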