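import Mathlib

set_option autoImplicit false

namespace Pool.Agent.MP_88e4f4_nt.TS

open Polynomial

/-- The trinomial `(y - 1) X ^ m + X - y`. -/
noncomputable def fp (y m : ℕ) : ℤ[X] := C ((y : ℤ) - 1) * X ^ m + X - C (y : ℤ)

theorem c1_small {y m : ℕ} (hy : 2 ≤ y) (Q N : ℕ) (hN : N < m) :
    ∃ (c : ℕ → ℤ) (q : ℤ[X]),
      C ((y : ℤ) - 1) ^ Q * X ^ N = ∑ s ∈ Finset.range m, C (c s) * X ^ s + fp y m * q ∧
      ∑ s ∈ Finset.range m, |c s| ≤ ((y : ℤ) + 1) ^ Q := by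
  have h0 : (0 : ℤ) ≤ (y : ℤ) - 1 := by
    have : (2 : ℤ) ≤ y := by exact_mod_cast hy
    linarith
  refine ⟨fun s => if s = N then ((y : ℤ) - 1) ^ Q else 0, 0, ?_, ?_⟩
  · rw [mul_zero, add_zero, Finset.sum_eq_single N]
    · dsimp only
      rw [if_pos rfl, C_pow]
    · intro s _ hs
      dsimp only
      rw [if_neg hs, C_0, zero_mul]
    · intro h
      exact absurd (Finset.mem_range.2 hN) h
  · rw [Finset.sum_eq_single N]
    · dsimp only
      rw [if_pos rfl, abs_of_nonneg (pow_nonneg h0 Q)]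
      exact pow_le_pow_left₀ h0 (by linarith) Q
    · intro s _ hs
      dsimp only
      rw [if_neg hs, abs_zero]
    · intro h
      exact absurd (Finset.mem_range.2 hN) h

/-- ROW C1. Reduction of `(y - 1) ^ Q * X ^ N` modulo the trinomial, with small coefficients.

Proof. Induction on `Q` (for all `N`). If `N < m`: `c` is `(y - 1) ^ Q` at `N` and `0` elsewhere,
`q = 0`, and `(y - 1) ^ Q ≤ (y + 1) ^ Q`. If `N ≥ m` then `Q ≥ 1` (since `N ≤ (Q + 1) (m - 1)`),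
`Q = Q' + 1`, and `(y - 1) X ^ N = X ^ (N - m) * fp - X ^ (N - m + 1) + y X ^ (N - m)`. So
`(y - 1) ^ Q X ^ N = (y - 1)^Q' X ^ (N - m) fp - (y - 1) ^ Q' X ^ (N - m + 1) + y (y - 1) ^ Q' X ^ (N - m)`,
and `N - m + 1 ≤ (Q' + 1) (m - 1)`: apply the induction hypothesis to `N - m + 1` and `N - m` and
combine: `c = - c₁ + y c₂`, `∑ |c| ≤ (1 + y) (y + 1) ^ Q'`. -/
theorem red_exists {y m : ℕ} (hy : 2 ≤ y) (hm : 2 ≤ m) (Q : ℕ) : ∀ N : ℕ, N ≤ (Q + 1) * (m - 1) →
    ∃ (c : ℕ → ℤ) (q : ℤ[X]),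
      C ((y : ℤ) - 1) ^ Q * X ^ N = ∑ s ∈ Finset.range m, C (c s) * X ^ s + fp y m * q ∧
      ∑ s ∈ Finset.range m, |c s| ≤ ((y : ℤ) + 1) ^ Q := by
  induction Q with
  | zero =>
    intro N hN
    exact c1_small hy 0 N (by omega)
  | succ Q ih =>
    intro N hN
    by_cases hNm : N < m
    · exact c1_small hy (Q + 1) N hNm
    · obtain ⟨k, rfl⟩ : ∃ k, N = m + k := ⟨N - m, by omega⟩
      have h1 : (Q + 1 + 1) * (m - 1) = (Q + 1) * (m - 1) + (m - 1) := by ring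
      obtain ⟨c1, q1, e1, b1⟩ := ih (k + 1) (by omega)
      obtain ⟨c2, q2, e2, b2⟩ := ih k (by omega)
      refine ⟨fun s => - c1 s + y * c2 s, C ((y : ℤ) - 1) ^ Q * X ^ k - q1 + C (y : ℤ) * q2, ?_, ?_⟩
      · have h2 : ∑ s ∈ Finset.range m, C (- c1 s + y * c2 s) * X ^ s =
            - ∑ s ∈ Finset.range m, C (c1 s) * X ^ s +
            C (y : ℤ) * ∑ s ∈ Finset.range m, C (c2 s) * X ^ s := by
          rw [Finset.mul_sum, ← Finset.sum_neg_distrib, ← Finset.sum_add_distrib]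
          refine Finset.sum_congr rfl fun s _ => ?_
          rw [C_add, C_neg, C_mul]
          ring
        rw [h2]
        have e1' : ∑ s ∈ Finset.range m, C (c1 s) * X ^ s =
            C ((y : ℤ) - 1) ^ Q * X ^ (k + 1) - fp y m * q1 := by rw [e1]; ring
        have e2' : ∑ s ∈ Finset.range m, C (c2 s) * X ^ s =
            C ((y : ℤ) - 1) ^ Q * X ^ k - fp y m * q2 := by rw [e2]; ring
        rw [e1', e2']
        unfold fp
        ring
      · have h3 : ∀ s ∈ Finset.range m, |- c1 s + y * c2 s| ≤ |c1 s| + y * |c2 s| := by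
          intro s _
          refine (abs_add_le _ _).trans ?_
          rw [abs_neg, abs_mul, abs_of_nonneg (Int.natCast_nonneg y)]
        refine (Finset.sum_le_sum h3).trans ?_
        rw [Finset.sum_add_distrib, ← Finset.mul_sum]
        have h4 : (y : ℤ) * ∑ s ∈ Finset.range m, |c2 s| ≤ y * ((y : ℤ) + 1) ^ Q :=
          mul_le_mul_of_nonneg_left b2 (Int.natCast_nonneg y)
        calc _ ≤ ((y : ℤ) + 1) ^ Q + y * ((y : ℤ) + 1) ^ Q := add_le_add b1 h4
          _ = ((y : ℤ) + 1) ^ (Q + 1) := by ring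

end Pool.Agent.MP_88e4f4_nt.TS
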