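import Mathlib

set_option autoImplicit false

namespace Pool.Agent.MP_88e4f4_nt.TS

/-- ROW D1. Selection of a basis among the rows, first among the rows of the first kind.

Proof. Apply `exists_linearIndepOn_extension` (or `exists_linearIndependent_extension`) first to the
family `r = Sum.elim (fun a => u a) (fun l => v l) : A ⊕ L → (I → ℚ)` with `s = ∅`, `t = Set.range Sum.inl`:
`b₁ ⊆ range inl` with `r` linearly independent on `b₁` and `r '' (range inl) ⊆ span (r '' b₁)`; then with
`s = b₁`, `t = univ`: `b ⊇ b₁`, independent, spanning all rows. The rows span `I → ℚ`: by duality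
(`hker`: only the zero functional vanishes on all rows; `Submodule.exists_le_ker_of_lt_top` or
`Submodule.dualAnnihilator...`, a functional on `I → ℚ` is `z ↦ ∑ i, c i * z i`), so `r` restricted to
`b` is a basis and `b` has `card I` elements. An element `inl a ∈ b` is in `b₁`, since `r (inl a)` is in
`span (r '' b₁)` and `b` is independent. Choose an enumeration `e` of `b` by `I`. -/
theorem exists_basis_rows {I A L : Type} [Fintype I] [DecidableEq I] [Fintype A] [Fintype L]
    (u : A → I → ℚ) (v : L → I → ℚ)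
    (hker : ∀ c : I → ℚ, (∀ a, ∑ i, c i * u a i = 0) → (∀ l, ∑ i, c i * v l i = 0) → c = 0) :
    ∃ e : I → A ⊕ L, Function.Injective e ∧
      (Matrix.of fun p i => Sum.elim u v (e p) i).det ≠ 0 ∧
      ∀ a : A, u a ∈ Submodule.span ℚ (Set.range fun p : {p : I // (e p).isLeft} =>
        (Sum.elim u v (e p) : I → ℚ)) := by
  classical
  set r : A ⊕ L → (I → ℚ) := Sum.elim u v with hr
  obtain ⟨b₁, hb₁, -, hspan₁, hind₁⟩ := exists_linearIndepOn_extension (K := ℚ) (v := r)
    (linearIndepOn_empty ℚ r) (Set.empty_subset (Set.range (Sum.inl : A → A ⊕ L)))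
  obtain ⟨b, -, hb, hspan, hind⟩ := exists_linearIndepOn_extension (K := ℚ) (v := r)
    hind₁ (Set.subset_univ b₁)
  -- the rows span
  have htop : Submodule.span ℚ (r '' b) = ⊤ := by
    by_contra hcon
    obtain ⟨f, hf0, hf⟩ := Submodule.exists_le_ker_of_lt_top _ (lt_top_iff_ne_top.2 hcon)
    apply hf0
    have hfz : ∀ z : I → ℚ, f z = ∑ i, f (Pi.single i 1) * z i := by
      intro z
      conv_lhs => rw [pi_eq_sum_univ' z]
      rw [map_sum]
      refine Finset.sum_congr rfl fun i _ => ?_
      rw [map_smul, smul_eq_mul, mul_comm]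
    have hrow : ∀ x, f (r x) = 0 := by
      intro x
      have h1 : r x ∈ Submodule.span ℚ (r '' b) := hspan ⟨x, Set.mem_univ x, rfl⟩
      exact hf h1
    have hc := hker (fun i => f (Pi.single i 1))
      (fun a => by
        rw [← hfz]
        exact hrow (Sum.inl a))
      (fun l => by
        rw [← hfz]
        exact hrow (Sum.inr l))
    apply LinearMap.ext
    intro z
    rw [hfz z]
    refine Finset.sum_eq_zero fun i _ => ?_
    rw [show f (Pi.single i 1) = 0 from congrFun hc i, zero_mul]
  have hli : LinearIndependent ℚ (fun x : b => r x) := hind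
  have htop' : ⊤ ≤ Submodule.span ℚ (Set.range (fun x : b => r x)) := by
    rw [← htop, Set.image_eq_range]
  let bas := Module.Basis.mk hli htop'
  have hcard : Fintype.card I = Fintype.card b := by
    rw [← Module.finrank_eq_card_basis bas, Module.finrank_pi]
  let e0 : I ≃ b := Fintype.equivOfCardEq hcard
  refine ⟨fun p => (e0 p : A ⊕ L), Subtype.val_injective.comp e0.injective, ?_, ?_⟩
  · have h1 : LinearIndependent ℚ (fun p : I => r (e0 p)) := hli.comp e0 e0.injective
    have h2 : IsUnit (Matrix.of fun p i => Sum.elim u v ((e0 p : A ⊕ L)) i) :=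
      Matrix.linearIndependent_rows_iff_isUnit.1 h1
    rw [Matrix.isUnit_iff_isUnit_det, isUnit_iff_ne_zero] at h2
    exact h2
  · intro a
    have h1 : u a ∈ Submodule.span ℚ (r '' b₁) := hspan₁ ⟨Sum.inl a, ⟨a, rfl⟩, rfl⟩
    refine Submodule.span_mono ?_ h1
    rintro _ ⟨x, hx, rfl⟩
    have hxb : x ∈ b := hb hx
    obtain ⟨a', ha'⟩ := hb₁ hx
    have h2 : (e0 (e0.symm ⟨x, hxb⟩) : A ⊕ L) = x := by rw [Equiv.apply_symm_apply]
    refine ⟨⟨e0.symm ⟨x, hxb⟩, ?_⟩, ?_⟩
    · show (e0 (e0.symm ⟨x, hxb⟩) : A ⊕ L).isLeft = true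
      rw [h2, ← ha']
      rfl
    · show r (e0 (e0.symm ⟨x, hxb⟩) : A ⊕ L) = r x
      rw [h2]

end Pool.Agent.MP_88e4f4_nt.TS
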