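import Mathlib

set_option autoImplicit false

namespace Pool.Agent.MP_88e4f4_nt.TS

/-- ROW D2. Adding to some rows combinations of the other rows does not change the determinant.

Proof. `M' = U * M` with `U i j = (if i = j then 1 else 0) + (if P i ∧ ¬ P j then n i j else 0)`, where
for `P i` the row `M' i - M i` is `∑ j with ¬ P j, n i j • M j` (`hspan`, choose coefficients by
`Submodule.mem_span_range_iff_exists_fun` or `mem_span_set'`). `U` is block triangular for the predicate
`P`: `Matrix.twoBlockTriangular_det'` (or `Matrix.twoBlockTriangular_det`) gives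
`det U = det (block of P) * det (block of ¬ P)`, and both blocks are identity matrices. So
`det M' = det M`. -/
theorem det_eq_of_add_span {I : Type} [Fintype I] [DecidableEq I] (M M' : Matrix I I ℚ)
    (P : I → Prop) [DecidablePred P] (hrow : ∀ i, ¬ P i → M' i = M i)
    (hspan : ∀ i, P i → M' i - M i ∈ Submodule.span ℚ (Set.range fun j : {j : I // ¬ P j} =>
      (M j : I → ℚ))) : M'.det = M.det := by
  classical
  have hex : ∀ i, ∃ c : {j : I // ¬ P j} → ℚ, P i → ∑ j, c j • (M j : I → ℚ) = M' i - M i := by
    intro i
    by_cases hP : P i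
    · obtain ⟨c, hc⟩ := (Submodule.mem_span_range_iff_exists_fun ℚ).1 (hspan i hP)
      exact ⟨c, fun _ => hc⟩
    · exact ⟨0, fun h => absurd h hP⟩
  choose c hc using hex
  obtain ⟨N, hN⟩ : ∃ N : Matrix I I ℚ, ∀ i j, N i j =
      if h : ¬ P j then (if P i then c i ⟨j, h⟩ else 0) else 0 :=
    ⟨Matrix.of fun i j => if h : ¬ P j then (if P i then c i ⟨j, h⟩ else 0) else 0, fun _ _ => rfl⟩
  have hM : M' = (1 + N) * M := by
    ext i k
    rw [Matrix.add_mul, Matrix.one_mul, Matrix.add_apply, Matrix.mul_apply]
    by_cases hP : P i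
    · have h1 := congrFun (hc i hP) k
      rw [Finset.sum_apply, Pi.sub_apply] at h1
      have h2 : ∑ j, N i j * M j k = ∑ j : {j : I // ¬ P j}, (c i j • (M j : I → ℚ)) k := by
        rw [← Finset.sum_filter_of_ne (s := Finset.univ) (p := fun j => ¬ P j)
          (f := fun j => N i j * M j k),
          Finset.sum_subtype (Finset.univ.filter fun j => ¬ P j) (p := fun j => ¬ P j)
            (by intro x; simp)]
        · refine Finset.sum_congr rfl fun j _ => ?_
          rw [hN, dif_pos j.2, if_pos hP, Pi.smul_apply, smul_eq_mul]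
        · intro j _ hj hPj
          apply hj
          rw [hN, dif_neg (not_not.2 hPj), zero_mul]
      rw [h2, h1]
      ring
    · have h2 : ∑ j, N i j * M j k = 0 := by
        refine Finset.sum_eq_zero fun j _ => ?_
        rw [hN]
        split_ifs <;> simp
      rw [h2, hrow i hP, add_zero]
  have hdet : (1 + N).det = 1 := by
    rw [Matrix.twoBlockTriangular_det (1 + N) P]
    · have e1 : Matrix.toSquareBlockProp (1 + N) P = 1 := by
        ext i j
        rw [Matrix.toSquareBlockProp_def, Matrix.of_apply, Matrix.add_apply, hN,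
          dif_neg (not_not.2 j.2), add_zero, Matrix.one_apply, Matrix.one_apply]
        simp only [Subtype.ext_iff]
      have e2 : Matrix.toSquareBlockProp (1 + N) (fun i => ¬ P i) = 1 := by
        ext i j
        rw [Matrix.toSquareBlockProp_def, Matrix.of_apply, Matrix.add_apply, hN,
          dif_pos j.2, if_neg i.2, add_zero, Matrix.one_apply, Matrix.one_apply]
        simp only [Subtype.ext_iff]
      rw [e1, e2, Matrix.det_one, Matrix.det_one, one_mul]
    · intro i hi j hj
      rw [Matrix.add_apply, hN, dif_neg (not_not.2 hj), add_zero, Matrix.one_apply_ne]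
      rintro rfl
      exact hi hj
  rw [hM, Matrix.det_mul, hdet, one_mul]

end Pool.Agent.MP_88e4f4_nt.TS
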