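import Mathlib

set_option autoImplicit false

namespace Pool.Agent.MP_88e4f4_nt.TS

/-- ROW D3. Leibniz bound for a determinant with different bounds for the rows.

Proof. `Matrix.det_apply'`, `|∑| ≤ ∑ |·|`, `|sign| = 1`, `Finset.abs_prod`, each product
`∏ i, |M (σ i) i|` is at most `∏ i, b (σ i) = ∏ i, b i` (`Equiv.prod_comp`), and there are
`(card I)!` permutations (`Fintype.card_perm`). -/
theorem abs_det_le {I : Type} [Fintype I] [DecidableEq I] (M : Matrix I I ℤ) (b : I → ℤ)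
    (hb : ∀ i j, |M i j| ≤ b i) :
    |M.det| ≤ ((Fintype.card I).factorial : ℤ) * ∏ i, b i := by
  rw [Matrix.det_apply']
  refine (Finset.abs_sum_le_sum_abs _ _).trans ?_
  have h : ∀ σ ∈ (Finset.univ : Finset (Equiv.Perm I)),
      |((Equiv.Perm.sign σ : ℤ) : ℤ) * ∏ i, M (σ i) i| ≤ ∏ i, b i := by
    intro σ _
    have hs : |((Equiv.Perm.sign σ : ℤ) : ℤ)| = 1 := by
      rcases Int.units_eq_one_or (Equiv.Perm.sign σ) with h | h <;> simp [h]
    rw [abs_mul, hs, one_mul, Finset.abs_prod, ← Equiv.prod_comp σ b]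
    exact Finset.prod_le_prod (fun i _ => abs_nonneg _) fun i _ => hb _ _
  refine (Finset.sum_le_card_nsmul _ _ _ h).trans (le_of_eq ?_)
  rw [Finset.card_univ, Fintype.card_perm, nsmul_eq_mul]

end Pool.Agent.MP_88e4f4_nt.TS
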