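import Pool.Agent.MP_88e4f4_nt.TS.D1
import Pool.Agent.MP_88e4f4_nt.TS.D2
import Pool.Agent.MP_88e4f4_nt.TS.D3

set_option autoImplicit false

namespace Pool.Agent.MP_88e4f4_nt.TS

/-- ROW D4. The determinant argument.

Proof. Take `e` from `exists_basis_rows` (for the rows cast to `ℚ`). Let `M : Matrix I I ℤ` be the
matrix with rows `Sum.elim u v (e p)`; `det M ≠ 0` (cast to `ℚ`: `Matrix.map`, `RingHom.map_det`). Let
`P p` be the predicate `(e p).isRight`, `t` the number of `p` with `P p`, `s` the number of the other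
ones; `s + t = card I`, `s ≤ card A`, `t ≤ card L` because `e` is injective.
Divisibility: let `Mz` be the matrix with rows `z • M p` for `P p` and `M p` otherwise,
`det Mz = z ^ t * det M` (`Matrix.det_mul_column`, `det_mul_row`). Let `M'` be the matrix with rows
`Y ^ w • q l` for `e p = inr l` and `M p` otherwise; `det M' = (Y ^ w) ^ t * det (integer matrix)`. For
`e p = inr l` the difference `M' p - Mz p = - ∑ a, h l a • u a` is (over `ℚ`) in the span of the rows
with `¬ P` by `exists_basis_rows`, so `det M' = det Mz` by `det_eq_of_add_span` (over `ℚ`, hence over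
`ℤ`). So `Y ^ (w t) ∣ z ^ t * det M` and, `z` being coprime to `Y`, `Y ^ (w t) ∣ det M`. As `det M ≠ 0`,
`Y ^ (w t) ≤ |det M| ≤ (card I)! * U ^ s * V ^ t` by `abs_det_le` with `b p = V` for `P p` and `U`
otherwise. -/
theorem core_ineq {I A L : Type} [Fintype I] [DecidableEq I] [Fintype A] [Fintype L]
    (u : A → I → ℤ) (v : L → I → ℤ)
    (hker : ∀ c : I → ℚ, (∀ a, ∑ i, c i * (u a i : ℚ) = 0) → (∀ l, ∑ i, c i * (v l i : ℚ) = 0) → c = 0)
    (Y z : ℤ) (hY : 1 ≤ Y) (hz : IsCoprime z Y) (w : ℕ) (h : L → A → ℤ) (q : L → I → ℤ)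
    (hcong : ∀ l i, z * v l i = ∑ a, h l a * u a i + Y ^ w * q l i)
    (U V : ℤ) (hU : ∀ a i, |u a i| ≤ U) (hV : ∀ l i, |v l i| ≤ V) :
    ∃ s t : ℕ, s + t = Fintype.card I ∧ s ≤ Fintype.card A ∧ t ≤ Fintype.card L ∧
      Y ^ (w * t) ≤ ((Fintype.card I).factorial : ℤ) * U ^ s * V ^ t := by
  classical
  obtain ⟨e, he, hdet, hspan⟩ := exists_basis_rows (fun a i => (u a i : ℚ))
    (fun l i => (v l i : ℚ)) hker
  obtain ⟨P, hP⟩ : ∃ P : I → Prop, ∀ p, P p ↔ (e p).isRight = true := ⟨_, fun _ => Iff.rfl⟩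
  have hPl : ∀ p, ¬ P p ↔ (e p).isLeft = true := by
    intro p
    rw [hP]
    cases e p <;> simp
  -- the integer matrices
  obtain ⟨M, hM⟩ : ∃ M : Matrix I I ℤ, ∀ p i, M p i = Sum.elim u v (e p) i :=
    ⟨Matrix.of fun p i => Sum.elim u v (e p) i, fun _ _ => rfl⟩
  obtain ⟨K, hK⟩ : ∃ K : Matrix I I ℤ, ∀ p i, K p i = Sum.elim u q (e p) i :=
    ⟨Matrix.of fun p i => Sum.elim u q (e p) i, fun _ _ => rfl⟩
  have hM0 : M.det ≠ 0 := by
    intro h0
    apply hdet
    have h1 : (Matrix.of fun p i => Sum.elim (fun a i => (u a i : ℚ)) (fun l i => (v l i : ℚ))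
        (e p) i) = (Int.castRingHom ℚ).mapMatrix M := by
      ext p i
      rw [RingHom.mapMatrix_apply, Matrix.map_apply, Matrix.of_apply, hM]
      cases e p <;> simp
    rw [h1, ← RingHom.map_det, h0, map_zero]
  set t := (Finset.univ.filter fun p => P p).card with ht
  set s := (Finset.univ.filter fun p => ¬ P p).card with hs
  have hst : s + t = Fintype.card I := by
    rw [hs, ht, add_comm, Finset.card_filter_add_card_filter_not, Finset.card_univ]
  have hsA : s ≤ Fintype.card A := by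
    rw [hs, ← Finset.card_map ⟨e, he⟩, ← Finset.card_univ,
      ← Finset.card_map (s := (Finset.univ : Finset A)) (⟨Sum.inl, Sum.inl_injective⟩ : A ↪ A ⊕ L)]
    refine Finset.card_le_card fun y hy => ?_
    rw [Finset.mem_map] at hy ⊢
    obtain ⟨p, hp, rfl⟩ := hy
    rw [Finset.mem_filter, hPl, Sum.isLeft_iff] at hp
    obtain ⟨a, ha⟩ := hp.2
    exact ⟨a, Finset.mem_univ _, ha.symm⟩
  have htL : t ≤ Fintype.card L := by
    rw [ht, ← Finset.card_map ⟨e, he⟩, ← Finset.card_univ,
      ← Finset.card_map (s := (Finset.univ : Finset L)) (⟨Sum.inr, Sum.inr_injective⟩ : L ↪ A ⊕ L)]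
    refine Finset.card_le_card fun y hy => ?_
    rw [Finset.mem_map] at hy ⊢
    obtain ⟨p, hp, rfl⟩ := hy
    rw [Finset.mem_filter, hP, Sum.isRight_iff] at hp
    obtain ⟨a, ha⟩ := hp.2
    exact ⟨a, Finset.mem_univ _, ha.symm⟩
  -- determinants of the two modified matrices
  have hprod : ∀ c : ℤ, ∏ p, (if P p then c else 1) = c ^ t := by
    intro c
    rw [Finset.prod_ite, Finset.prod_const, Finset.prod_const_one, mul_one]
  have hMz : (Matrix.of fun p i => (if P p then z else 1) * M p i).det = z ^ t * M.det := by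
    rw [Matrix.det_mul_column, hprod]
  have hMy : (Matrix.of fun p i => (if P p then Y ^ w else 1) * K p i).det =
      (Y ^ w) ^ t * K.det := by
    rw [Matrix.det_mul_column, hprod]
  have hQ : ((Int.castRingHom ℚ).mapMatrix
      (Matrix.of fun p i => (if P p then Y ^ w else 1) * K p i)).det =
      ((Int.castRingHom ℚ).mapMatrix (Matrix.of fun p i => (if P p then z else 1) * M p i)).det := by
    have hz1 : ∀ p, ¬ P p → (((Int.castRingHom ℚ).mapMatrix
        (Matrix.of fun p i => (if P p then z else 1) * M p i)) p : I → ℚ) =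
        Sum.elim (fun a i => (u a i : ℚ)) (fun l i => (v l i : ℚ)) (e p) := by
      intro p hp
      ext i
      rw [RingHom.mapMatrix_apply, Matrix.map_apply, Matrix.of_apply, if_neg hp, one_mul, hM]
      cases e p <;> simp
    refine det_eq_of_add_span _ _ P (fun p hp => ?_) (fun p hp => ?_)
    · rw [hz1 p hp]
      ext i
      rw [RingHom.mapMatrix_apply, Matrix.map_apply, Matrix.of_apply, if_neg hp, one_mul, hK]
      obtain ⟨a, ha⟩ := Sum.isLeft_iff.1 ((hPl p).1 hp)
      rw [ha]
      simp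
    · obtain ⟨l, hl⟩ := Sum.isRight_iff.1 ((hP p).1 hp)
      have h1 : (((Int.castRingHom ℚ).mapMatrix
          (Matrix.of fun p i => (if P p then Y ^ w else 1) * K p i)) p -
          ((Int.castRingHom ℚ).mapMatrix (Matrix.of fun p i => (if P p then z else 1) * M p i)) p :
          I → ℚ) = ∑ a, (-(h l a : ℚ)) • (fun i => (u a i : ℚ)) := by
        ext i
        rw [Pi.sub_apply, Finset.sum_apply, RingHom.mapMatrix_apply, RingHom.mapMatrix_apply,
          Matrix.map_apply, Matrix.map_apply, Matrix.of_apply, Matrix.of_apply, if_pos hp,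
          if_pos hp, hK, hM, hl]
        simp only [Sum.elim_inr, Pi.smul_apply, smul_eq_mul, neg_mul, Finset.sum_neg_distrib]
        have h2 := congrArg (Int.castRingHom ℚ) (hcong l i)
        simp only [map_mul, map_add, map_sum, map_pow] at h2
        simp only [map_mul, map_pow]
        simp only [eq_intCast] at h2 ⊢
        linarith
      rw [h1]
      refine Submodule.sum_mem _ fun a _ => Submodule.smul_mem _ _ ?_
      refine Submodule.span_mono ?_ (hspan a)
      rintro _ ⟨j, rfl⟩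
      exact ⟨⟨j.1, (hPl _).2 j.2⟩, hz1 _ ((hPl _).2 j.2)⟩
  rw [← RingHom.map_det, ← RingHom.map_det, hMz, hMy] at hQ
  have hZ : (Y ^ w) ^ t * K.det = z ^ t * M.det := Int.cast_injective (α := ℚ) hQ
  have hdvd : Y ^ (w * t) ∣ M.det := by
    have h1 : IsCoprime (Y ^ (w * t)) (z ^ t) := hz.symm.pow
    refine h1.dvd_of_dvd_mul_left ?_
    rw [← hZ, pow_mul]
    exact dvd_mul_right _ _
  refine ⟨s, t, hst, hsA, htL, ?_⟩
  have h3 : Y ^ (w * t) ≤ |M.det| := Int.le_of_dvd (abs_pos.2 hM0) ((dvd_abs _ _).2 hdvd)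
  refine h3.trans ?_
  have h4 := abs_det_le M (fun p => if P p then V else U) (fun p j => by
    rw [hM]
    by_cases hp : P p
    · obtain ⟨l, hl⟩ := Sum.isRight_iff.1 ((hP p).1 hp)
      rw [if_pos hp, hl]
      exact hV l j
    · obtain ⟨a, ha⟩ := Sum.isLeft_iff.1 ((hPl p).1 hp)
      rw [if_neg hp, ha]
      exact hU a j)
  refine h4.trans (le_of_eq ?_)
  rw [Finset.prod_ite, Finset.prod_const, Finset.prod_const]
  ring

end Pool.Agent.MP_88e4f4_nt.TS
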