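import Mathlib

set_option autoImplicit false

namespace Pool.Agent.MP_88e4f4_nt.TS

/-- ROW E1. Bound for binomial coefficients.

Proof. `(1 + 1/R)^i = ∑ l', choose i l' / R ^ l' ≥ choose i l / R ^ l`, so
`choose i l ≤ R ^ l (1 + 1/R) ^ i ≤ R ^ T (1 + 1/R) ^ (R T) ≤ R ^ T * 3 ^ T`, because
`(1 + 1/R) ^ R ≤ exp 1 < 3` (`Real.add_one_le_exp`, `Real.exp_one_lt_d9`). -/
theorem choose_le {R T i l : ℕ} (hR : 1 ≤ R) (hi : i ≤ R * T) (hl : l ≤ T) :
    i.choose l ≤ (3 * R) ^ T := by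
  have hR0 : (0 : ℝ) < R := by exact_mod_cast hR
  have h1 : (i.choose l : ℝ) * (1 / (R : ℝ)) ^ l ≤ (1 / (R : ℝ) + 1) ^ i := by
    rcases le_or_gt l i with h | h
    · rw [add_pow]
      have h2 := Finset.single_le_sum (f := fun k => (1 / (R : ℝ)) ^ k * 1 ^ (i - k) * (i.choose k : ℝ))
        (fun k _ => by positivity) (Finset.mem_range.2 (Nat.lt_succ_of_le h))
      refine le_trans (le_of_eq ?_) h2
      simp only [one_pow, mul_one]
      ring
    · rw [Nat.choose_eq_zero_of_lt h, Nat.cast_zero, zero_mul]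
      positivity
  have h3 : (1 / (R : ℝ) + 1) ^ R ≤ 3 := by
    have h4 := Real.add_one_le_exp (1 / (R : ℝ))
    have h5 : (1 / (R : ℝ) + 1) ^ R ≤ Real.exp (1 / (R : ℝ)) ^ R :=
      pow_le_pow_left₀ (by positivity) h4 R
    rw [← Real.exp_nat_mul, mul_one_div_cancel hR0.ne'] at h5
    have h6 := Real.exp_one_lt_d9
    linarith
  have h7 : (1 / (R : ℝ) + 1) ^ i ≤ 3 ^ T := by
    have h8 : (1 : ℝ) ≤ 1 / (R : ℝ) + 1 := by
      have : 0 ≤ 1 / (R : ℝ) := by positivity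
      linarith
    refine (pow_le_pow_right₀ h8 hi).trans ?_
    rw [pow_mul]
    exact pow_le_pow_left₀ (by positivity) h3 T
  have h9 : (i.choose l : ℝ) ≤ 3 ^ T * (R : ℝ) ^ l := by
    have h10 := h1.trans h7
    rw [one_div, inv_pow, ← div_eq_mul_inv, div_le_iff₀ (by positivity)] at h10
    exact h10
  have h11 : (R : ℝ) ^ l ≤ (R : ℝ) ^ T := pow_le_pow_right₀ (by exact_mod_cast hR) hl
  have h12 : (i.choose l : ℝ) ≤ ((3 * R : ℕ) : ℝ) ^ T := by
    push_cast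
    rw [mul_pow]
    exact h9.trans (mul_le_mul_of_nonneg_left h11 (by positivity))
  exact_mod_cast h12

end Pool.Agent.MP_88e4f4_nt.TS
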