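import Mathlib

set_option autoImplicit false

namespace Pool.Agent.MP_88e4f4_nt.TS

open Polynomial

/-- Partial sums of the Fuss-Catalan series. -/
noncomputable def f1_p (m : ℕ) : ℕ → ℕ[X]
  | 0 => 1
  | (j + 1) => f1_p m j + C ((f1_p m j ^ m).coeff j) * X ^ (j + 1)

/-- Fuss-Catalan numbers. -/
noncomputable def f1_c (m : ℕ) : ℕ → ℕ
  | 0 => 1
  | (j + 1) => (f1_p m j ^ m).coeff j

theorem f1_p_eq (m j : ℕ) : f1_p m j = ∑ i ∈ Finset.range (j + 1), C (f1_c m i) * X ^ i := by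
  induction j with
  | zero => simp [f1_p, f1_c]
  | succ j ih => rw [Finset.sum_range_succ, ← ih, f1_p, f1_c]

theorem f1_coeff (m j i : ℕ) : (f1_p m j).coeff i = if i ≤ j then f1_c m i else 0 := by
  rw [f1_p_eq, finsetSum_coeff]
  simp only [coeff_C_mul, coeff_X_pow]
  by_cases h : i ≤ j
  · rw [if_pos h, Finset.sum_eq_single i]
    · simp
    · intro b _ hb
      rw [if_neg (Ne.symm hb), mul_zero]
    · intro hi
      exact absurd (Finset.mem_range.2 (Nat.lt_succ_of_le h)) hi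
  · rw [if_neg h]
    refine Finset.sum_eq_zero fun b hb => ?_
    rw [if_neg, mul_zero]
    intro hib
    rw [Finset.mem_range] at hb
    omega

theorem f1_stab (m : ℕ) {e j : ℕ} (h : e ≤ j) :
    (f1_p m j ^ m).coeff e = (f1_p m e ^ m).coeff e := by
  have h1 : (X : ℤ[X]) ^ (e + 1) ∣ (f1_p m j).map (Nat.castRingHom ℤ) -
      (f1_p m e).map (Nat.castRingHom ℤ) := by
    rw [X_pow_dvd_iff]
    intro d hd
    rw [coeff_sub, coeff_map, coeff_map, f1_coeff, f1_coeff, if_pos (by omega), if_pos (by omega),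
      sub_self]
  have h2 := h1.trans (sub_dvd_pow_sub_pow _ _ m)
  rw [X_pow_dvd_iff] at h2
  have h3 := h2 e (Nat.lt_succ_self e)
  rw [coeff_sub, ← Polynomial.map_pow, ← Polynomial.map_pow, coeff_map, coeff_map, sub_eq_zero] at h3
  simpa using h3

theorem f1_eval_zero (m j : ℕ) : (f1_p m j).coeff 0 = 1 := by
  rw [f1_coeff, if_pos (Nat.zero_le _), f1_c]

theorem f1_one_le (m : ℕ) (hm : 1 ≤ m) (i : ℕ) : 1 ≤ f1_c m i := by
  induction i with
  | zero => rw [f1_c]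
  | succ j ih =>
    obtain ⟨k, rfl⟩ := Nat.exists_eq_add_of_le' hm
    rw [f1_c, pow_succ', coeff_mul]
    have h1 : ((j, 0) : ℕ × ℕ) ∈ Finset.HasAntidiagonal.antidiagonal j := by simp
    have h2 := Finset.single_le_sum (s := Finset.HasAntidiagonal.antidiagonal j)
      (f := fun x : ℕ × ℕ => (f1_p (k + 1) j).coeff x.1 * (f1_p (k + 1) j ^ k).coeff x.2)
      (fun _ _ => Nat.zero_le _) h1
    refine le_trans ?_ h2
    have h3 : (f1_p (k + 1) j ^ k).coeff 0 = 1 := by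
      rw [coeff_zero_eq_eval_zero, eval_pow, ← coeff_zero_eq_eval_zero, f1_eval_zero, one_pow]
    simp only [h3, mul_one]
    rw [f1_coeff, if_pos le_rfl]
    exact ih

theorem f1_eval_le {a b : ℕ[X]} (h : ∀ i, a.coeff i ≤ b.coeff i) {r : ℝ} (hr : 0 ≤ r) :
    a.eval₂ (Nat.castRingHom ℝ) r ≤ b.eval₂ (Nat.castRingHom ℝ) r := by
  rw [eval₂_eq_sum_range' (Nat.castRingHom ℝ)
      (Nat.lt_succ_of_le (le_max_left a.natDegree b.natDegree)) r,
    eval₂_eq_sum_range' (Nat.castRingHom ℝ)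
      (Nat.lt_succ_of_le (le_max_right a.natDegree b.natDegree)) r]
  refine Finset.sum_le_sum fun i _ => ?_
  refine mul_le_mul_of_nonneg_right ?_ (pow_nonneg hr i)
  simpa using h i

theorem f1_bound (m : ℕ) (hm : 1 ≤ m) (j : ℕ) :
    (f1_p m j).eval₂ (Nat.castRingHom ℝ) (1 / (4 * m : ℝ)) ≤ 1 + 1 / m := by
  have hm0 : (0 : ℝ) < m := by exact_mod_cast hm
  have hr : (0 : ℝ) ≤ 1 / (4 * m : ℝ) := by positivity
  have h3 : (1 + 1 / (m : ℝ)) ^ m ≤ 3 := by
    have h4 := Real.add_one_le_exp (1 / (m : ℝ))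
    have h5 : (1 / (m : ℝ) + 1) ^ m ≤ Real.exp (1 / (m : ℝ)) ^ m :=
      pow_le_pow_left₀ (by positivity) h4 m
    rw [← Real.exp_nat_mul, mul_one_div_cancel hm0.ne', add_comm] at h5
    have h6 := Real.exp_one_lt_d9
    linarith
  induction j with
  | zero =>
    rw [f1_p, eval₂_one]
    have : 0 ≤ 1 / (m : ℝ) := by positivity
    linarith
  | succ j ih =>
    have h1 : (f1_p m (j + 1)).eval₂ (Nat.castRingHom ℝ) (1 / (4 * m : ℝ)) ≤
        (1 + X * f1_p m j ^ m : ℕ[X]).eval₂ (Nat.castRingHom ℝ) (1 / (4 * m : ℝ)) := by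
      refine f1_eval_le (fun i => ?_) hr
      rw [f1_coeff]
      rcases i with _ | e
      · rw [if_pos (Nat.zero_le _), f1_c, coeff_add, coeff_one_zero]
        exact Nat.le_add_right _ _
      · split_ifs with h
        · rw [f1_c, coeff_add, coeff_X_mul, f1_stab m (show e ≤ j by omega)]
          exact Nat.le_add_left _ _
        · exact Nat.zero_le _
    refine h1.trans ?_
    rw [eval₂_add, eval₂_mul, eval₂_one, eval₂_X, eval₂_pow]
    have h7 : 0 ≤ (f1_p m j).eval₂ (Nat.castRingHom ℝ) (1 / (4 * m : ℝ)) := by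
      have := f1_eval_le (a := 0) (b := f1_p m j) (fun i => Nat.zero_le _) hr
      rwa [eval₂_zero] at this
    have h8 := (pow_le_pow_left₀ h7 ih m).trans h3
    have h9 : 1 / (4 * m : ℝ) * (f1_p m j).eval₂ (Nat.castRingHom ℝ) (1 / (4 * m : ℝ)) ^ m ≤
        1 / (4 * m : ℝ) * 3 := mul_le_mul_of_nonneg_left h8 hr
    have h10 : 1 / (4 * m : ℝ) * 3 ≤ 1 / m := by
      rw [div_mul_eq_mul_div, one_mul, div_le_div_iff₀ (by positivity) hm0]
      nlinarith
    linarith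

theorem f1_le (m : ℕ) (hm : 1 ≤ m) (i : ℕ) : f1_c m i ≤ (4 * m) ^ i := by
  have hm0 : (0 : ℝ) < m := by exact_mod_cast hm
  have hm1 : (1 : ℝ) ≤ m := by exact_mod_cast hm
  have hr : (0 : ℝ) ≤ 1 / (4 * m : ℝ) := by positivity
  rcases Nat.eq_zero_or_pos i with rfl | hi
  · rw [f1_c, pow_zero]
  · have h1 : (1 + C (f1_c m i) * X ^ i : ℕ[X]).eval₂ (Nat.castRingHom ℝ) (1 / (4 * m : ℝ)) ≤
        (f1_p m i).eval₂ (Nat.castRingHom ℝ) (1 / (4 * m : ℝ)) := by
      refine f1_eval_le (fun k => ?_) hr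
      rw [f1_coeff, coeff_add, coeff_C_mul, coeff_X_pow]
      rcases k with _ | k
      · rw [if_neg (by omega), if_pos (Nat.zero_le _), coeff_one_zero, f1_c, mul_zero, add_zero]
      · rw [coeff_one, if_neg (Nat.succ_ne_zero k), zero_add]
        by_cases h : k + 1 = i
        · subst h
          rw [if_pos rfl, if_pos le_rfl, mul_one]
        · rw [if_neg h, mul_zero]
          exact Nat.zero_le _
    rw [eval₂_add, eval₂_mul, eval₂_one, eval₂_C, eval₂_X_pow] at h1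
    have h2 := h1.trans (f1_bound m hm i)
    have h3 : (Nat.castRingHom ℝ) (f1_c m i) * (1 / (4 * m : ℝ)) ^ i ≤ 1 := by
      have : 1 / (m : ℝ) ≤ 1 := by
        rw [div_le_one hm0]
        exact hm1
      linarith
    rw [one_div, inv_pow, ← div_eq_mul_inv, div_le_iff₀ (by positivity), one_mul] at h3
    have h4 : (f1_c m i : ℝ) ≤ (4 * m : ℝ) ^ i := h3
    exact_mod_cast h4

/-- ROW F1. The Fuss-Catalan numbers: coefficients of the power series `B = 1 + X B ^ m`.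

Proof. Define `c` by recursion (e.g. strong recursion, or build the polynomials
`p 0 = 1`, `p (j+1) = p j + C (coeff_j (p j ^ m)) * X ^ (j+1)` over `ℕ`, `c j = (p j).coeff j`; then
`p j = ∑ i < j+1, C (c i) X ^ i` and `c (j+1) = (p j ^ m).coeff j`).
(1) `X ^ (j+1) ∣ 1 + X * p j ^ m - p j` over `ℤ`: for `j = 0` clear (`1 + X - 1`). Step: modulo
`X ^ (j+1)` we have `p (j+1) = p j`, so `X * p (j+1) ^ m = X * p j ^ m` modulo `X ^ (j+2)`, and
`1 + X * p j ^ m - p j = X ^ (j+1) g` with `g.coeff 0 = (p j ^ m).coeff j = c (j+1)` (the coefficient of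
`p j` in degree `j+1` is `0`), so `1 + X * p (j+1) ^ m - p (j+1)` is
`c (j+1) X ^ (j+1) - c (j+1) X ^ (j+1) = 0` modulo `X ^ (j+2)`.
(2) `c (j+1) ≥ c j`: `(p j * p j ^ (m-1)).coeff j ≥ (p j).coeff j * (p j ^ (m-1)).coeff 0 = c j`
(all coefficients are natural numbers). So `c j ≥ 1`.
(3) Upper bound. Let `ρ = 1 / (4 m)` (a rational or real number) and `P j = (p j)(ρ)`. Claim:
`P j ≤ 1 + 1 / m`. `P 0 = 1`. Coefficientwise `p (j+1) ≤ 1 + X p j ^ m` (for degrees `≤ j` the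
coefficients of `1 + X p j ^ m` and `p j` are equal by (1), in degree `j+1` it is the definition), so
`P (j+1) ≤ 1 + ρ P j ^ m ≤ 1 + ρ (1 + 1/m) ^ m ≤ 1 + 3 / (4 m) ≤ 1 + 1/m`
(`(1 + 1/m) ^ m ≤ exp 1 < 3`). As `P j ≥ 1 + c j ρ ^ j` for `j ≥ 1`, we get
`c j ≤ (4 m) ^ j / m ≤ (4 m) ^ j`. -/
theorem fuss_exists (m : ℕ) (hm : 1 ≤ m) : ∃ c : ℕ → ℕ, c 0 = 1 ∧ (∀ i, 1 ≤ c i) ∧
    (∀ i, c i ≤ (4 * m) ^ i) ∧
    ∀ j : ℕ, ∃ g : ℤ[X], 1 + X * (∑ i ∈ Finset.range (j + 1), C (c i : ℤ) * X ^ i) ^ m -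
      ∑ i ∈ Finset.range (j + 1), C (c i : ℤ) * X ^ i = X ^ (j + 1) * g := by
  refine ⟨f1_c m, rfl, f1_one_le m hm, f1_le m hm, fun j => ?_⟩
  have h1 : ∑ i ∈ Finset.range (j + 1), C (f1_c m i : ℤ) * X ^ i =
      (f1_p m j).map (Nat.castRingHom ℤ) := by
    rw [f1_p_eq, Polynomial.map_sum]
    refine Finset.sum_congr rfl fun i _ => ?_
    rw [Polynomial.map_mul, map_C, Polynomial.map_pow, map_X]
    rfl
  rw [h1]
  have h2 : (X : ℤ[X]) ^ (j + 1) ∣ 1 + X * (f1_p m j).map (Nat.castRingHom ℤ) ^ m -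
      (f1_p m j).map (Nat.castRingHom ℤ) := by
    rw [X_pow_dvd_iff]
    intro d hd
    rw [coeff_sub, coeff_add, ← Polynomial.map_pow, coeff_map, f1_coeff, if_pos (by omega)]
    rcases d with _ | e
    · rw [coeff_one_zero, mul_coeff_zero, coeff_X_zero, zero_mul, f1_c]
      simp
    · rw [coeff_X_mul, coeff_map, f1_stab m (show e ≤ j by omega), coeff_one,
        if_neg (Nat.succ_ne_zero e), zero_add, f1_c, sub_self]
  obtain ⟨g, hg⟩ := h2
  exact ⟨g, hg⟩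

end Pool.Agent.MP_88e4f4_nt.TS
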