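import Pool.Agent.MP_88e4f4_nt.GBasic

set_option autoImplicit false

namespace Pool.Agent.MP_88e4f4_nt.TS

open Pool.Agent.MP_88e4f4_nt.GB

/-- ROW F2. Two multiples of `y` at which the trinomial is divisible by `y ^ e` are congruent modulo
`y ^ e`.

Proof. `f(x) - f(x') = (x - x') * (1 + (y - 1) * G)` with `G = ∑ i < m, x ^ i x' ^ (m - 1 - i)`
(`Commute.geom_sum₂_mul`). As `m ≥ 2` and `y` divides `x` and `x'`, `y ∣ G`, so the second factor is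
coprime to `y`, hence to `y ^ e`. -/
theorem root_unique {y m e : ℕ} (hm : 2 ≤ m) {x x' : ℤ} (hx : (y : ℤ) ∣ x) (hx' : (y : ℤ) ∣ x')
    (h : (y : ℤ) ^ e ∣ ((y : ℤ) - 1) * x ^ m + x - y)
    (h' : (y : ℤ) ^ e ∣ ((y : ℤ) - 1) * x' ^ m + x' - y) : (y : ℤ) ^ e ∣ x - x' := by
  have hG : (y : ℤ) ∣ ∑ i ∈ Finset.range m, x ^ i * x' ^ (m - 1 - i) := by
    refine Finset.dvd_sum fun i _ => ?_
    rcases Nat.eq_zero_or_pos i with rfl | hi
    · exact Dvd.dvd.mul_left (dvd_pow hx' (by omega)) _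
    · exact Dvd.dvd.mul_right (dvd_pow hx (by omega)) _
  obtain ⟨g, hg⟩ := hG
  have h1 : (y : ℤ) ^ e ∣ (1 + y * (((y : ℤ) - 1) * g)) * (x - x') := by
    have h2 := (Commute.all x x').geom_sum₂_mul m
    rw [hg] at h2
    have h3 := dvd_sub h h'
    have h4 : (((y : ℤ) - 1) * x ^ m + x - y) - (((y : ℤ) - 1) * x' ^ m + x' - y) =
        (1 + y * (((y : ℤ) - 1) * g)) * (x - x') := by
      linear_combination (-((y : ℤ) - 1)) * h2
    rwa [h4] at h3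
  have h5 : IsCoprime (y : ℤ) (1 + y * (((y : ℤ) - 1) * g)) :=
    ⟨-(((y : ℤ) - 1) * g), 1, by ring⟩
  exact (h5.pow_left (m := e)).dvd_of_dvd_mul_left h1

/-- ROW F2 (second part). First consequences of `y ∣ x` for a solution.

Proof. `rel h : y ^ n (x - 1) = (y - 1) x ^ m + (x - y)` gives the first claim. `y ^ m` divides
`x ^ m` and `y ^ n` (`lt_len h : m < n`), so it divides `x - y = y ^ n (x - 1) - (y - 1) x ^ m`. As `x > y`,
`x ≥ y + y ^ m`. -/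
theorem first_of_dvd {x y m n : ℕ} (h : Sol x y m n) (hyx : y ∣ x) :
    (y : ℤ) ^ n ∣ ((y : ℤ) - 1) * (x : ℤ) ^ m + x - y ∧ (y : ℤ) ^ m ∣ (x : ℤ) - y ∧ y ^ m ≤ x := by
  have h1 := rel h
  have h2 := lt_len h
  have h3 : (y : ℤ) ^ n ∣ ((y : ℤ) - 1) * (x : ℤ) ^ m + x - y :=
    ⟨(x : ℤ) - 1, by linarith⟩
  have h4 : (y : ℤ) ^ m ∣ (x : ℤ) - y := by
    have h5 : (x : ℤ) - y = (y : ℤ) ^ n * ((x : ℤ) - 1) - ((y : ℤ) - 1) * (x : ℤ) ^ m := by linarith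
    rw [h5]
    refine dvd_sub (Dvd.dvd.mul_right (pow_dvd_pow _ h2.le) _) (Dvd.dvd.mul_left ?_ _)
    exact pow_dvd_pow_of_dvd (by exact_mod_cast hyx) m
  refine ⟨h3, h4, ?_⟩
  have hxy : y < x := h.2.1
  have h6 : (0 : ℤ) < (x : ℤ) - y := by
    have : (y : ℤ) < x := by exact_mod_cast hxy
    linarith
  have h7 := Int.le_of_dvd h6 h4
  have h8 : ((y ^ m : ℕ) : ℤ) ≤ x := by
    push_cast
    have : (0 : ℤ) ≤ y := Int.natCast_nonneg y
    linarith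
  exact_mod_cast h8

end Pool.Agent.MP_88e4f4_nt.TS
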