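import Pool.Agent.MP_88e4f4_nt.TS.F1
import Pool.Agent.MP_88e4f4_nt.TS.F2

set_option autoImplicit false

namespace Pool.Agent.MP_88e4f4_nt.TS

open Pool.Agent.MP_88e4f4_nt.GB Polynomial

theorem f3_geom {w : ℤ} (hw : 2 ≤ w) (j : ℕ) :
    ∑ i ∈ Finset.range (j + 1), w ^ i ≤ 2 * w ^ j := by
  induction j with
  | zero => simp
  | succ j ih =>
    rw [Finset.sum_range_succ]
    have h1 : 0 ≤ w ^ j := pow_nonneg (by linarith) j
    have h2 : 2 * w ^ j ≤ w * w ^ j := mul_le_mul_of_nonneg_right hw h1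
    rw [pow_succ w j]
    linarith [mul_comm w (w ^ j)]

/-- ROW F3. The truncated Fuss-Catalan series at `z = (1 - y) y ^ (m - 1)`.

Here `S j = y * ∑ i < j+1, c i * z ^ i` with the numbers `c` of `fuss_exists` (hypotheses `h0`, `hc`, `hg`).

Proof. (1) `y ∣ S j` is clear. (2) Evaluate `hg j` at `z`: with `s = ∑ i < j+1, c i z ^ i`,
`1 + z s ^ m - s = z ^ (j+1) g(z)` is divisible by `y ^ ((m - 1)(j + 1))`, and
`(y - 1) S ^ m + S - y = y ((y - 1) y ^ (m - 1) s ^ m + s - 1) = - y (1 + z s ^ m - s)` (`m ≥ 1`).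
(3) `|S j| ≤ y ∑ i < j+1, (4 m (y - 1) y ^ (m-1)) ^ i ≤ 2 y (4 m (y-1) y ^ (m-1)) ^ j` (geometric sum with
ratio `≥ 2`), and `2 (4 m (y-1)) ^ j ≤ 2 (4 m y) ^ j ≤ y ^ (m-1) / 2`. So
`2 |S j| ≤ 4 y (4 m y) ^ j y ^ ((m-1) j) ≤ y * y ^ (m-1) * y ^ ((m-1) j) = y ^ ((m-1)(j+1)+1)`. -/
theorem trunc_series {y m j : ℕ} (hy : 2 ≤ y) (hm : 2 ≤ m) (c : ℕ → ℕ)
    (hc : ∀ i, c i ≤ (4 * m) ^ i)
    (hg : ∃ g : ℤ[X], 1 + X * (∑ i ∈ Finset.range (j + 1), C (c i : ℤ) * X ^ i) ^ m -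
      ∑ i ∈ Finset.range (j + 1), C (c i : ℤ) * X ^ i = X ^ (j + 1) * g)
    (hsize : 4 * (4 * m * y) ^ j ≤ y ^ (m - 1)) (S : ℤ)
    (hS : S = y * ∑ i ∈ Finset.range (j + 1), (c i : ℤ) * ((1 - (y : ℤ)) * (y : ℤ) ^ (m - 1)) ^ i) :
    (y : ℤ) ∣ S ∧ (y : ℤ) ^ ((m - 1) * (j + 1) + 1) ∣ ((y : ℤ) - 1) * S ^ m + S - y ∧
      2 * |S| ≤ (y : ℤ) ^ ((m - 1) * (j + 1) + 1) := by
  obtain ⟨g, hg⟩ := hg
  set z : ℤ := (1 - (y : ℤ)) * (y : ℤ) ^ (m - 1) with hz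
  set s : ℤ := ∑ i ∈ Finset.range (j + 1), (c i : ℤ) * z ^ i with hs
  have hy' : (2 : ℤ) ≤ y := by exact_mod_cast hy
  have hym : (y : ℤ) ^ m = y * (y : ℤ) ^ (m - 1) := by
    rw [← pow_succ', Nat.sub_add_cancel (by omega)]
  have hev : 1 + z * s ^ m - s = z ^ (j + 1) * g.eval z := by
    have h1 := congrArg (Polynomial.eval z) hg
    simp only [eval_sub, eval_add, eval_one, eval_mul, eval_X, eval_pow, eval_finsetSum,
      eval_C] at h1
    exact h1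
  refine ⟨⟨s, hS⟩, ?_, ?_⟩
  · refine ⟨-((1 - (y : ℤ)) ^ (j + 1) * g.eval z), ?_⟩
    have h2 : ((y : ℤ) - 1) * S ^ m + S - y = -(y * (1 + z * s ^ m - s)) := by
      rw [hS, mul_pow, hym, hz]
      ring
    rw [h2, hev]
    have h3 : z ^ (j + 1) = (1 - (y : ℤ)) ^ (j + 1) * (y : ℤ) ^ ((m - 1) * (j + 1)) := by
      rw [hz, mul_pow, ← pow_mul]
    rw [h3, pow_succ]
    ring
  · set w : ℤ := 4 * m * (((y : ℤ) - 1) * (y : ℤ) ^ (m - 1)) with hw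
    have hypos : (1 : ℤ) ≤ (y : ℤ) ^ (m - 1) := one_le_pow₀ (by linarith)
    have hzabs : |z| = ((y : ℤ) - 1) * (y : ℤ) ^ (m - 1) := by
      rw [hz, abs_mul, abs_of_nonpos (by linarith : 1 - (y : ℤ) ≤ 0),
        abs_of_nonneg (by linarith)]
      ring
    have hm' : (2 : ℤ) ≤ m := by exact_mod_cast hm
    have hz1 : (1 : ℤ) ≤ ((y : ℤ) - 1) * (y : ℤ) ^ (m - 1) :=
      one_le_mul_of_one_le_of_one_le (by linarith) hypos
    have hw2 : 2 ≤ w := by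
      rw [hw]
      nlinarith
    have hsabs : |s| ≤ 2 * w ^ j := by
      refine le_trans ?_ (f3_geom hw2 j)
      rw [hs]
      refine (Finset.abs_sum_le_sum_abs _ _).trans (Finset.sum_le_sum fun i _ => ?_)
      rw [abs_mul, abs_pow, hzabs, hw, Nat.abs_cast, mul_pow (4 * (m : ℤ))]
      apply mul_le_mul_of_nonneg_right
      · exact_mod_cast hc i
      · exact pow_nonneg (by linarith) i
    have hsize' : (4 : ℤ) * (4 * m * y) ^ j ≤ (y : ℤ) ^ (m - 1) := by exact_mod_cast hsize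
    have hwj : w ^ j ≤ (4 * m * y) ^ j * (y : ℤ) ^ ((m - 1) * j) := by
      have h1 : w = (4 * m * ((y : ℤ) - 1)) * (y : ℤ) ^ (m - 1) := by
        rw [hw]
        ring
      rw [h1, mul_pow, ← pow_mul]
      apply mul_le_mul_of_nonneg_right
      · apply pow_le_pow_left₀
        · exact mul_nonneg (by linarith) (by linarith)
        · exact mul_le_mul_of_nonneg_left (by linarith) (by linarith)
      · exact pow_nonneg (by linarith) _
    have h5 : |S| = y * |s| := by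
      rw [hS, abs_mul, Nat.abs_cast]
    have h6 : (y : ℤ) ^ ((m - 1) * (j + 1) + 1) = y * ((y : ℤ) ^ (m - 1) * (y : ℤ) ^ ((m - 1) * j)) := by
      rw [← pow_add, ← pow_succ']
      congr 1
      ring
    rw [h5, h6]
    have h7 : 2 * |s| ≤ (y : ℤ) ^ (m - 1) * (y : ℤ) ^ ((m - 1) * j) := by
      have h8 : (0 : ℤ) ≤ (y : ℤ) ^ ((m - 1) * j) := pow_nonneg (by linarith) _
      have h9 := mul_le_mul_of_nonneg_right hsize' h8
      linarith
    have h10 := mul_le_mul_of_nonneg_left h7 (show (0 : ℤ) ≤ y by linarith)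
    linarith

end Pool.Agent.MP_88e4f4_nt.TS
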