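import Pool.Agent.MP_88e4f4_nt.TS.F3

set_option autoImplicit false

namespace Pool.Agent.MP_88e4f4_nt.TS

open Pool.Agent.MP_88e4f4_nt.GB Polynomial

/-- ROW F4. If `y ∣ x` then the larger base is very large.

Proof. Write `J = j + 1` and suppose `x < y ^ ((m-1) J)`. Let `S i` be as in `trunc_series` with the
numbers of `fuss_exists m`. We have `n ≥ m (m - 1)`: `first_of_dvd` gives `y ^ m ≤ x` and `pow_le h` gives
`x ^ (m-1) ≤ y ^ n`. For `i = j` and `i = j + 1`: `e_i := (m-1)(i+1) + 1 ≤ n` (because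
`(m-1)(j+2) + 1 ≤ (m-1)(m-1) + 1 ≤ m (m-1)`, `j + 3 ≤ m`), so by `root_unique` (and
`first_of_dvd`, `trunc_series`, the size condition for `j` follows from that for `j+1`)
`y ^ e_i ∣ x - S i`, while `|x - S i| ≤ x + |S i| < y ^ e_i` (`2 |S i| ≤ y ^ e_i` and
`2 x < 2 y ^ ((m-1)J) ≤ y ^ e_i`, as `y ≥ 2`). So `x = S j = S (j+1)`. But
`S (j+1) - S j = y c (j+1) z ^ (j+1) ≠ 0`. Contradiction. -/
theorem gap_of_dvd {x y m n J : ℕ} (h : Sol x y m n) (hyx : y ∣ x) (hJ : 1 ≤ J) (hJm : J + 2 ≤ m)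
    (hsize : 4 * (4 * m * y) ^ J ≤ y ^ (m - 1)) : y ^ ((m - 1) * J) ≤ x := by
  by_contra hcon
  push Not at hcon
  have hy : 2 ≤ y := h.1
  have hm : 3 ≤ m := h.2.2.1
  obtain ⟨c, hc0, hc1, hc4, hg⟩ := fuss_exists m (by omega)
  obtain ⟨hf1, hf2, hf3⟩ := first_of_dvd h hyx
  -- `m (m - 1) ≤ n`
  have hn : m * (m - 1) ≤ n := by
    have h1 : (y ^ m) ^ (m - 1) ≤ y ^ n := (Nat.pow_le_pow_left hf3 _).trans (pow_le h)
    rw [← pow_mul] at h1
    exact (Nat.pow_le_pow_iff_right (by omega)).1 h1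
  set z : ℤ := (1 - (y : ℤ)) * (y : ℤ) ^ (m - 1) with hz
  have hyZ : (2 : ℤ) ≤ (y : ℤ) := by exact_mod_cast hy
  have key : ∀ i, J ≤ i + 1 → i ≤ J → 4 * (4 * m * y) ^ i ≤ y ^ (m - 1) →
      (x : ℤ) = y * ∑ k ∈ Finset.range (i + 1), (c k : ℤ) * z ^ k := by
    intro i hi1 hi2 hsz
    obtain ⟨t1, t2, t3⟩ := trunc_series (y := y) (m := m) (j := i) hy (by omega) c hc4 (hg i) hsz
      (y * ∑ k ∈ Finset.range (i + 1), (c k : ℤ) * z ^ k) rfl
    set S : ℤ := y * ∑ k ∈ Finset.range (i + 1), (c k : ℤ) * z ^ k with hS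
    set e : ℕ := (m - 1) * (i + 1) + 1 with he
    have hen : e ≤ n := by
      refine le_trans ?_ hn
      obtain ⟨q, rfl⟩ : ∃ q, m = q + 1 := ⟨m - 1, by omega⟩
      have h2 : i + 1 ≤ q := by omega
      have h3 : q * (i + 1) ≤ q * q := Nat.mul_le_mul_left q h2
      simp only [he, Nat.add_sub_cancel]
      nlinarith
    have h4 : (y : ℤ) ^ e ∣ ((y : ℤ) - 1) * (x : ℤ) ^ m + x - y := (pow_dvd_pow _ hen).trans hf1
    have h5 : (y : ℤ) ^ e ∣ (x : ℤ) - S :=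
      root_unique (by omega) (by exact_mod_cast hyx) t1 h4 t2
    have h6 : 2 * (x : ℤ) < (y : ℤ) ^ e := by
      have h7 : (x : ℤ) < (y : ℤ) ^ ((m - 1) * J) := by exact_mod_cast hcon
      have h8 : (y : ℤ) ^ ((m - 1) * J + 1) ≤ (y : ℤ) ^ e := by
        refine pow_le_pow_right₀ (by linarith) ?_
        rw [he]
        exact Nat.succ_le_succ (Nat.mul_le_mul_left _ hi1)
      have h9 : 2 * (y : ℤ) ^ ((m - 1) * J) ≤ (y : ℤ) ^ ((m - 1) * J + 1) := by
        rw [pow_succ, mul_comm]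
        exact mul_le_mul_of_nonneg_left hyZ (by positivity)
      linarith
    have h10 : |(x : ℤ) - S| < (y : ℤ) ^ e := by
      have h11 : |(x : ℤ) - S| ≤ |(x : ℤ)| + |S| := abs_sub _ _
      have h12 : |(x : ℤ)| = x := abs_of_nonneg (by positivity)
      rw [h12] at h11
      linarith
    have h13 := Int.eq_zero_of_abs_lt_dvd h5 h10
    linarith
  obtain ⟨j, rfl⟩ : ∃ j, J = j + 1 := ⟨J - 1, by omega⟩
  have hsz' : 4 * (4 * m * y) ^ j ≤ y ^ (m - 1) := by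
    refine le_trans (Nat.mul_le_mul_left 4 (Nat.pow_le_pow_right ?_ (Nat.le_succ j))) hsize
    have : 0 < m * y := Nat.mul_pos (by omega) (by omega)
    nlinarith
  have k1 := key j le_rfl (Nat.le_succ j) hsz'
  have k2 := key (j + 1) (Nat.le_succ _) le_rfl hsize
  rw [Finset.sum_range_succ, mul_add, ← k1] at k2
  have hz0 : z ≠ 0 := mul_ne_zero (by linarith) (pow_ne_zero _ (by linarith))
  have hcj : (c (j + 1) : ℤ) ≠ 0 := by
    have := hc1 (j + 1)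
    positivity
  have k3 : (y : ℤ) * ((c (j + 1) : ℤ) * z ^ (j + 1)) = 0 := by linarith
  exact (mul_ne_zero (by linarith) (mul_ne_zero hcj (pow_ne_zero _ hz0))) k3

end Pool.Agent.MP_88e4f4_nt.TS
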