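import Mathlib

set_option autoImplicit false

namespace Pool.Agent.MP_88e4f4_nt.TS

/-- ROW M2. `T ^ 2 * (3 R) ^ T ≤ (4 R) ^ T` for `T ≥ 30`.

Proof. `T ^ 2 * 3 ^ T ≤ 4 ^ T` for `T ≥ 30` by induction (`30 ^ 2 * 3 ^ 30 ≤ 4 ^ 30` by `norm_num`, and
`3 (T + 1) ^ 2 ≤ 4 T ^ 2` for `T ≥ 7`). -/
theorem sq_mul_pow_le {R T : ℕ} (hT : 30 ≤ T) : T ^ 2 * (3 * R) ^ T ≤ (4 * R) ^ T := by
  have key : ∀ n : ℕ, (n + 30) ^ 2 * 3 ^ (n + 30) ≤ 4 ^ (n + 30) := by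
    intro n
    induction n with
    | zero => norm_num
    | succ n ih =>
      have h0 : 3 * (n + 1 + 30) ^ 2 + (n ^ 2 + 54 * n + 717) = 4 * (n + 30) ^ 2 := by ring
      have h1 : 3 * (n + 1 + 30) ^ 2 ≤ 4 * (n + 30) ^ 2 := Nat.le.intro h0
      calc (n + 1 + 30) ^ 2 * 3 ^ (n + 1 + 30)
          = (3 * (n + 1 + 30) ^ 2) * 3 ^ (n + 30) := by
            rw [show n + 1 + 30 = (n + 30) + 1 by ring, pow_succ 3 (n + 30)]
            ring
        _ ≤ (4 * (n + 30) ^ 2) * 3 ^ (n + 30) := Nat.mul_le_mul_right _ h1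
        _ = 4 * ((n + 30) ^ 2 * 3 ^ (n + 30)) := by ring
        _ ≤ 4 * 4 ^ (n + 30) := Nat.mul_le_mul_left _ ih
        _ = 4 ^ (n + 1 + 30) := by
            rw [show n + 1 + 30 = (n + 30) + 1 by ring, pow_succ 4 (n + 30)]
            ring
  have h2 := key (T - 30)
  rw [Nat.sub_add_cancel hT] at h2
  rw [mul_pow, mul_pow, ← mul_assoc]
  exact Nat.mul_le_mul_right _ h2

/-- ROW M2 (second part). The exponents. From the main inequality to an inequality for exponents.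

Proof. `(D (k+1))! ≤ (D (k+1)) ^ (s + t) ≤ (T ^ 2) ^ s (T ^ 2) ^ t`, `T ^ 2 (3 R) ^ T ≤ (4 R) ^ T`,
`y + 1 ≤ a ^ 2`, `x ^ k ≤ a ^ ((K+1) k)`. So
`a ^ ((m-1) K t) ≤ ((4 R) ^ T a ^ (2 Q)) ^ s ((4 R) ^ T a ^ D a ^ ((K+1) k)) ^ t`. Raise to the power 12 and
use `((4 R) ^ 12) ^ T ≤ a ^ T`:
`a ^ (12 (m-1) K t) ≤ a ^ ((T + 24 Q) s + (T + 12 D + 12 (K+1) k) t)`; compare exponents (`a ≥ 2`). -/
theorem exponent_ineq {y m a x K k T D Q R s t : ℕ} (hy : 2 ≤ y) (hya : y ≤ a) (hT : 30 ≤ T)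
    (hxK : x < a ^ (K + 1)) (ha : (4 * R) ^ 12 ≤ a) (hst : s + t = D * (k + 1))
    (hcard : D * (k + 1) ≤ T ^ 2)
    (h : a ^ ((m - 1) * K * t) ≤ (D * (k + 1)).factorial * ((3 * R) ^ T * (y + 1) ^ Q) ^ s *
        ((3 * R) ^ T * a ^ D * x ^ k) ^ t) :
    12 * (m - 1) * K * t ≤ (T + 24 * Q) * s + (T + 12 * D + 12 * (K + 1) * k) * t := by
  have ha2 : 2 ≤ a := hy.trans hya
  have hya2 : y + 1 ≤ a ^ 2 := by nlinarith
  have hTR := sq_mul_pow_le (R := R) hT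
  -- the two factors
  have f1 : T ^ 2 * ((3 * R) ^ T * (y + 1) ^ Q) ≤ (4 * R) ^ T * a ^ (2 * Q) := by
    rw [← mul_assoc, pow_mul]
    exact Nat.mul_le_mul hTR (Nat.pow_le_pow_left hya2 Q)
  have f2 : T ^ 2 * ((3 * R) ^ T * a ^ D * x ^ k) ≤ (4 * R) ^ T * a ^ D * a ^ ((K + 1) * k) := by
    rw [← mul_assoc, ← mul_assoc, pow_mul]
    exact Nat.mul_le_mul (Nat.mul_le_mul_right _ hTR) (Nat.pow_le_pow_left hxK.le k)
  have hfac : (D * (k + 1)).factorial ≤ (T ^ 2) ^ s * (T ^ 2) ^ t := by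
    rw [← pow_add, hst]
    exact (Nat.factorial_le_pow _).trans (Nat.pow_le_pow_left hcard _)
  have g1 : a ^ ((m - 1) * K * t) ≤ ((4 * R) ^ T * a ^ (2 * Q)) ^ s *
      ((4 * R) ^ T * a ^ D * a ^ ((K + 1) * k)) ^ t := by
    calc a ^ ((m - 1) * K * t) ≤ (D * (k + 1)).factorial * ((3 * R) ^ T * (y + 1) ^ Q) ^ s *
        ((3 * R) ^ T * a ^ D * x ^ k) ^ t := h
      _ ≤ ((T ^ 2) ^ s * (T ^ 2) ^ t) * ((3 * R) ^ T * (y + 1) ^ Q) ^ s *
        ((3 * R) ^ T * a ^ D * x ^ k) ^ t :=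
          Nat.mul_le_mul_right _ (Nat.mul_le_mul_right _ hfac)
      _ = (T ^ 2 * ((3 * R) ^ T * (y + 1) ^ Q)) ^ s *
          (T ^ 2 * ((3 * R) ^ T * a ^ D * x ^ k)) ^ t := by
          rw [mul_pow (T ^ 2) ((3 * R) ^ T * (y + 1) ^ Q) s,
            mul_pow (T ^ 2) ((3 * R) ^ T * a ^ D * x ^ k) t]
          ring
      _ ≤ _ := Nat.mul_le_mul (Nat.pow_le_pow_left f1 s) (Nat.pow_le_pow_left f2 t)
  have hR12 : ((4 * R) ^ T) ^ 12 ≤ a ^ T := by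
    rw [← pow_mul, mul_comm T 12, pow_mul]
    exact Nat.pow_le_pow_left ha T
  have g2 : a ^ (12 * (m - 1) * K * t) ≤
      a ^ ((T + 24 * Q) * s + (T + 12 * D + 12 * (K + 1) * k) * t) := by
    calc a ^ (12 * (m - 1) * K * t) = (a ^ ((m - 1) * K * t)) ^ 12 := by
          rw [← pow_mul]
          congr 1
          ring
      _ ≤ (((4 * R) ^ T * a ^ (2 * Q)) ^ s *
          ((4 * R) ^ T * a ^ D * a ^ ((K + 1) * k)) ^ t) ^ 12 := Nat.pow_le_pow_left g1 12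
      _ = (((4 * R) ^ T) ^ 12 * a ^ (24 * Q)) ^ s *
          (((4 * R) ^ T) ^ 12 * (a ^ (12 * D) * a ^ (12 * (K + 1) * k))) ^ t := by
          rw [mul_pow (((4 * R) ^ T * a ^ (2 * Q)) ^ s), ← pow_mul _ s 12, mul_comm s 12,
            pow_mul _ 12 s, ← pow_mul _ t 12, mul_comm t 12, pow_mul _ 12 t]
          congr 2
          · rw [mul_pow, ← pow_mul a]
            congr 2
            ring
          · rw [mul_pow, mul_pow, ← pow_mul a, ← pow_mul a, mul_assoc]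
            congr 3
            · ring
            · ring
      _ ≤ (a ^ T * a ^ (24 * Q)) ^ s *
          (a ^ T * (a ^ (12 * D) * a ^ (12 * (K + 1) * k))) ^ t :=
          Nat.mul_le_mul (Nat.pow_le_pow_left (Nat.mul_le_mul_right _ hR12) s)
            (Nat.pow_le_pow_left (Nat.mul_le_mul_right _ hR12) t)
      _ = _ := by
          rw [← pow_add, ← pow_add, ← pow_add, ← pow_mul, ← pow_mul, ← pow_add]
          congr 1
          ring
  exact (Nat.pow_le_pow_iff_right (by omega)).1 g2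

end Pool.Agent.MP_88e4f4_nt.TS
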