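import Mathlib

set_option autoImplicit false

namespace Pool.Agent.MP_88e4f4_nt.TS

/-- The basic inequalities between the parameters. -/
theorem m3_basic {m R k K N₀ T D Q : ℕ} (hR : 6 ≤ R) (hm : 64 * R ≤ m) (hk : k = m / R)
    (hK : 2 * (m + 1) * k ≤ K) (hN₀ : N₀ = 3 * K / 2) (hT : T = N₀ + (m + 1) * k + K)
    (hD : D = (m * T + N₀) / (k + 1) + 1) (hQ : Q = (D + k) / (m - 1)) :
    64 ≤ k ∧ 384 ≤ m ∧ k * R ≤ m ∧ m + 1 ≤ (k + 1) * R ∧ 6 * k ≤ m ∧ 128 * (m + 1) ≤ K ∧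
      2 * N₀ ≤ 3 * K ∧ 3 * K ≤ 2 * N₀ + 1 ∧ N₀ ≤ T ∧ T ≤ 3 * K ∧
      (k + 1) * (D - 1) ≤ m * T + N₀ ∧ m * T + N₀ + 1 ≤ (k + 1) * D ∧ 1 ≤ D ∧ D ≤ R * T + 1 ∧
      Q * (m - 1) ≤ D + k ∧ D + k + 1 ≤ (Q + 1) * (m - 1) := by
  have hR0 : 0 < R := by omega
  have h1 : 64 ≤ k := by
    rw [hk, Nat.le_div_iff_mul_le hR0]
    exact hm
  have h2 : 384 ≤ m := by omega
  have h3 : k * R ≤ m := by
    rw [hk]
    exact Nat.div_mul_le_self m R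
  have h4 : m + 1 ≤ (k + 1) * R := by
    rw [hk, mul_comm]
    exact Nat.lt_mul_div_succ m hR0
  have h5 : 6 * k ≤ m := by nlinarith
  have h6 : 128 * (m + 1) ≤ K := by nlinarith
  have h7 : 2 * N₀ ≤ 3 * K := by omega
  have h8 : 3 * K ≤ 2 * N₀ + 1 := by omega
  have h9 : N₀ ≤ T := by
    rw [hT]
    exact le_trans (Nat.le_add_right _ _) (Nat.le_add_right _ _)
  have h10 : T ≤ 3 * K := by
    have : 2 * ((m + 1) * k) ≤ K := by
      rw [← mul_assoc]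
      exact hK
    omega
  have hD1 : D - 1 = (m * T + N₀) / (k + 1) := by rw [hD, Nat.add_sub_cancel]
  have h11 : (k + 1) * (D - 1) ≤ m * T + N₀ := by
    rw [hD1]
    exact Nat.mul_div_le _ _
  have h12 : m * T + N₀ + 1 ≤ (k + 1) * D := by
    rw [hD]
    exact Nat.lt_mul_div_succ (m * T + N₀) (Nat.succ_pos k)
  have h13 : 1 ≤ D := by
    rw [hD]
    exact Nat.le_add_left _ _
  have h14 : D ≤ R * T + 1 := by
    have g1 : (k + 1) * (D - 1) ≤ (k + 1) * (R * T) := by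
      calc (k + 1) * (D - 1) ≤ m * T + N₀ := h11
        _ ≤ (m + 1) * T := by nlinarith
        _ ≤ ((k + 1) * R) * T := Nat.mul_le_mul_right T h4
        _ = (k + 1) * (R * T) := by ring
    have g2 := Nat.le_of_mul_le_mul_left g1 (Nat.succ_pos k)
    omega
  have hm1 : 0 < m - 1 := by omega
  have h15 : Q * (m - 1) ≤ D + k := by
    rw [hQ]
    exact Nat.div_mul_le_self _ _
  have h16 : D + k + 1 ≤ (Q + 1) * (m - 1) := by
    rw [hQ, mul_comm]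
    exact Nat.lt_mul_div_succ (D + k) hm1
  exact ⟨h1, h2, h3, h4, h5, h6, h7, h8, h9, h10, h11, h12, h13, h14, h15, h16⟩

/-- ROW M3. The final numerical contradiction, a pure inequality.

Here `k = m / R`, `N₀ = 3 K / 2`, `T = N₀ + (m + 1) k + K`, `D = (m T + N₀) / (k + 1) + 1`,
`Q = (D + k) / (m - 1)`.

Proof. `k ≥ 64` and `K ≥ 2 (m + 1) k ≥ 128 (m + 1)`. `T ≤ 3 K` (as `(m + 1) k ≤ K / 2`). From
`(k + 1) R ≥ m + 1` and `N₀ ≤ T`: `D - 1 ≤ (m + 1) T / (k + 1) ≤ R T`, so `D ≤ 3 R K + 1`. `k ≤ m / 6`,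
`R ≤ m / 64`. Then
`12 (m-1) K - T - 12 D - 12 (K+1) k ≥ 12 m K - 12 K - 3 K - (36/64) m K - 12 - 2 m (K + 1)
≥ 9.37 m K` (`m ≥ 384`, `K ≥ 128 (m+1)`), and `t ≥ N₀ + 1 ≥ 3 K / 2`. And
`T + 24 Q ≤ 3 K + 24 (3 (m/64) K + 1 + m/6) / (m - 1) ≤ 4.2 K`, `s ≤ T m ≤ 3 K m`. So the left side is
`≥ 14 m K ^ 2` and the right side `≤ 12.6 m K ^ 2`. -/
theorem final_numeric {m R k K N₀ T D Q s t : ℕ} (hR : 6 ≤ R) (hm : 64 * R ≤ m) (hk : k = m / R)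
    (hK : 2 * (m + 1) * k ≤ K) (hN₀ : N₀ = 3 * K / 2) (hT : T = N₀ + (m + 1) * k + K)
    (hD : D = (m * T + N₀) / (k + 1) + 1) (hQ : Q = (D + k) / (m - 1))
    (hs : s ≤ T * m) (hst : s + t = D * (k + 1)) :
    (T + 24 * Q) * s + (T + 12 * D + 12 * (K + 1) * k) * t < 12 * (m - 1) * K * t := by
  obtain ⟨h1, h2, h3, h4, h5, h6, h7, h8, h9, h10, h11, h12, h13, h14, h15, h16⟩ :=
    m3_basic hR hm hk hK hN₀ hT hD hQ
  obtain ⟨m', rfl⟩ : ∃ m', m = m' + 1 := ⟨m - 1, by omega⟩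
  rw [Nat.add_sub_cancel] at h15 h16 ⊢
  clear hQ hD hT hN₀ hk h16 h11
  zify at *
  have hKpos : (0 : ℤ) < K := by linarith
  have hRK : (64 : ℤ) * (R * K) ≤ (m' + 1) * K := by nlinarith
  have hRT : (R : ℤ) * T ≤ R * (3 * K) := mul_le_mul_of_nonneg_left h10 (by linarith)
  have hD64 : (64 : ℤ) * D ≤ 3 * ((m' + 1) * K) + 64 := by nlinarith
  have hmK : (384 : ℤ) * K ≤ (m' + 1) * K := mul_le_mul_of_nonneg_right h2 hKpos.le
  have hQ20 : (20 : ℤ) * Q ≤ K := by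
    have g1 : (20 : ℤ) * Q * m' ≤ K * m' := by nlinarith
    exact le_of_mul_le_mul_right g1 (by linarith)
  have hTQ : (5 : ℤ) * (T + 24 * Q) ≤ 21 * K := by linarith
  have hs3 : (s : ℤ) ≤ 3 * ((m' + 1) * K) := by nlinarith
  have ht : (3 : ℤ) * K + 1 ≤ 2 * t := by nlinarith
  have hKk : (6 : ℤ) * ((K + 1) * k) ≤ (K + 1) * (m' + 1) := by nlinarith
  have hA : (9 : ℤ) * ((m' + 1) * K) ≤ 12 * m' * K - (T + 12 * D + 12 * (K + 1) * k) := by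
    nlinarith
  have hL : (5 : ℤ) * ((T + 24 * Q) * s) ≤ 21 * K * (3 * ((m' + 1) * K)) := by
    have g1 : (5 : ℤ) * (T + 24 * Q) * s ≤ 21 * K * s :=
      mul_le_mul_of_nonneg_right hTQ (Int.natCast_nonneg s)
    have g2 : (21 : ℤ) * K * s ≤ 21 * K * (3 * ((m' + 1) * K)) :=
      mul_le_mul_of_nonneg_left hs3 (by linarith)
    linarith
  have hM : (9 : ℤ) * ((m' + 1) * K) * t ≤
      (12 * m' * K - (T + 12 * D + 12 * (K + 1) * k)) * t :=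
    mul_le_mul_of_nonneg_right hA (Int.natCast_nonneg t)
  have hP : (0 : ℤ) < (m' + 1) * K := by nlinarith
  have hN : ((m' + 1) * K : ℤ) * (3 * K + 1) ≤ (m' + 1) * K * (2 * t) :=
    mul_le_mul_of_nonneg_left ht hP.le
  have hPK : (0 : ℤ) < (m' + 1) * K * K := mul_pos hP hKpos
  nlinarith

/-- ROW M3 (second part). The side conditions for these parameters.

Proof. `(k + 1) R ≥ m + 1` gives `(m T + N₀) / (k + 1) ≤ (m + 1) T / (k + 1) ≤ R T`. With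
`N = (k+1)(D-1) + (m+1) k + 1 - m T` and `(k+1)(D-1) ≤ m T + N₀ < (k + 1) D`:
`N ≤ N₀ + (m+1) k + 1 = T - K + 1`, and `m T + N = (k+1)(D-1) + (m+1) k + 1` (the subtraction does not
truncate: `(k+1)(D-1) + k + 1 > m T + N₀`, and `(m + 1) k ≥ k`). `T ≤ D`: `(k + 1) T ≤ m T` as
`k + 1 ≤ m`. `D + k < (Q + 1)(m - 1)`. `D (k+1) ≤ m T + N₀ + k + 1 ≤ T ^ 2` because
`T ≥ 2 K ≥ 256 (m+1)`. -/
theorem side_conditions {m R k K N₀ T D Q N : ℕ} (hR : 6 ≤ R) (hm : 64 * R ≤ m) (hk : k = m / R)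
    (hK : 2 * (m + 1) * k ≤ K) (hN₀ : N₀ = 3 * K / 2) (hT : T = N₀ + (m + 1) * k + K)
    (hD : D = (m * T + N₀) / (k + 1) + 1) (hQ : Q = (D + k) / (m - 1))
    (hN : N = (k + 1) * (D - 1) + (m + 1) * k + 1 - m * T) :
    N + K ≤ T + 1 ∧ T ≤ D ∧ D ≤ R * T + 1 ∧ (k + 1) * (D - 1) + (m + 1) * k < m * T + N ∧
      D + k ≤ (Q + 1) * (m - 1) + 1 ∧ 30 ≤ T ∧ D * (k + 1) ≤ T ^ 2 ∧ 1 ≤ K := by
  obtain ⟨h1, h2, h3, h4, h5, h6, h7, h8, h9, h10, h11, h12, h13, h14, h15, h16⟩ :=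
    m3_basic hR hm hk hK hN₀ hT hD hQ
  have hkm : k ≤ (m + 1) * k := Nat.le_mul_of_pos_left k (Nat.succ_pos m)
  have hDk : (k + 1) * D = (k + 1) * (D - 1) + (k + 1) := by
    obtain ⟨D', rfl⟩ : ∃ D', D = D' + 1 := ⟨D - 1, by omega⟩
    rw [Nat.add_sub_cancel]
    ring
  have hTK : K ≤ T := by
    rw [hT]
    exact Nat.le_add_left _ _
  have hmT : (k + 1) * T ≤ m * T := Nat.mul_le_mul_right T (by omega)
  refine ⟨by omega, ?_, h14, by omega, by omega, by omega, ?_, by omega⟩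
  · have g1 : (k + 1) * T ≤ (k + 1) * D := by omega
    exact Nat.le_of_mul_le_mul_left g1 (Nat.succ_pos k)
  · have g1 : D * (k + 1) ≤ m * T + N₀ + k + 1 := by
      rw [mul_comm]
      omega
    have g2 : N₀ + k + 1 ≤ T := by omega
    have g3 : (m + 1) * T ≤ T * T := Nat.mul_le_mul_right T (by omega)
    have g4 : (m + 1) * T = m * T + T := by ring
    rw [pow_two]
    omega

end Pool.Agent.MP_88e4f4_nt.TS
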