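import Pool.Agent.MP_88e4f4_nt.TS.M1
import Pool.Agent.MP_88e4f4_nt.TS.M2
import Pool.Agent.MP_88e4f4_nt.TS.M3

set_option autoImplicit false

namespace Pool.Agent.MP_88e4f4_nt.TS

/-- Two good approximations `a < x` to the same root, with `x` much larger than `a`, do not exist. -/
theorem no_anchor {y m a x μ ν K R : ℕ} (hy : 2 ≤ y) (hR : 6 ≤ R) (hm : 64 * R ≤ m) (hya : y ≤ a)
    (hax : a ≤ x)
    (hμ : (y : ℤ) ^ μ ∣ (a : ℤ) - x) (hν : (y : ℤ) ^ ν ∣ ((y : ℤ) - 1) * (x : ℤ) ^ m + x - y)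
    (h1 : a ^ (m - 1) ≤ y ^ μ) (h2 : a ^ ((m - 1) * K) ≤ y ^ ν)
    (hK : 2 * (m + 1) * (m / R) ≤ K) (hxK : x < a ^ (K + 1)) (ha : (4 * R) ^ 12 ≤ a) : False := by
  obtain ⟨c1, c2, c3, c4, c5, c6, c7, c8⟩ := side_conditions (m := m) (R := R) (k := m / R) (K := K)
    (N₀ := 3 * K / 2) (T := 3 * K / 2 + (m + 1) * (m / R) + K)
    (D := (m * (3 * K / 2 + (m + 1) * (m / R) + K) + 3 * K / 2) / (m / R + 1) + 1)
    (Q := ((m * (3 * K / 2 + (m + 1) * (m / R) + K) + 3 * K / 2) / (m / R + 1) + 1 + m / R) / (m - 1))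
    (N := (m / R + 1) * ((m * (3 * K / 2 + (m + 1) * (m / R) + K) + 3 * K / 2) / (m / R + 1) + 1 - 1)
      + (m + 1) * (m / R) + 1 - m * (3 * K / 2 + (m + 1) * (m / R) + K))
    hR hm rfl hK rfl rfl rfl rfl rfl
  obtain ⟨s, t, hst, hs, _, hmain⟩ := anchor_ineq hy (by omega) hya hax c8 (by omega) hμ hν h1 h2
    c1 c2 c3 c4 c5
  have e1 := exponent_ineq (m := m) hy hya c6 hxK ha hst c7 hmain
  have e2 := final_numeric hR hm rfl hK rfl rfl rfl rfl hs hst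
  omega

end Pool.Agent.MP_88e4f4_nt.TS
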