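import Pool.Agent.MP_88e4f4_nt.TS.F4
import Pool.Agent.MP_88e4f4_nt.TS.M4

set_option autoImplicit false

namespace Pool.Agent.MP_88e4f4_nt.TS

open Pool.Agent.MP_88e4f4_nt.GB

/-- ROW G1. No solution with `y ∣ x`, integer form.

Proof. Put `R = 3 (A + 1) ≥ 6`, `64 R = 192 (A + 1) ≤ m`, `J = (m - 3) / (A + 1)`, so `1 ≤ J`,
`J + 2 ≤ m` and `J (A + 1) + 2 ≤ m - 1`. Size condition: `4 ≤ y ^ 2` and `(4 m y) ^ J ≤ (y ^ (A + 1)) ^ J`, so
`4 (4 m y) ^ J ≤ y ^ (2 + (A + 1) J) ≤ y ^ (m - 1)`. By `gap_of_dvd`, `y ^ ((m-1) J) ≤ x`. Let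
`K = Nat.log y x`: `y ^ K ≤ x < y ^ (K + 1)`, `K ≥ (m - 1) J`. Then `2 (m+1) (m / R) ≤ K`: from
`(A + 1) J ≥ m - 3 - A` and `3 (A + 1) (m / R) ≤ m` it is enough that
`2 m (m + 1) ≤ 3 (m - 1) (m - 3 - A)`, true for `m ≥ 192 (A + 1)`.
Apply `no_anchor` with `a = y`, `μ = m`, `ν = n`: `y ^ m ∣ x - y` (`first_of_dvd`),
`y ^ (m - 1) ≤ y ^ m`, `y ^ ((m-1) K) ≤ x ^ (m-1) ≤ y ^ n` (`pow_le h`). -/
theorem no_sol {x y m n A : ℕ} (h : Sol x y m n) (hyx : y ∣ x) (hA : 1 ≤ A) (hmA : 4 * m ≤ y ^ A)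
    (hm : 192 * (A + 1) ≤ m) (hy : (12 * (A + 1)) ^ 12 ≤ y) : False := by
  obtain ⟨hy2, hxy, hm3, hn3, -⟩ := id h
  have hB : 2 ≤ A + 1 := by omega
  set B := A + 1 with hBdef
  set J := (m - 3) / B with hJ
  set K := Nat.log y x with hK
  have hBJ : B * J ≤ m - 3 := Nat.mul_div_le (m - 3) B
  have hBJ' : m - 3 < B * J + B := by
    have h1 := Nat.lt_mul_div_succ (m - 3) (show 0 < B by omega)
    rw [Nat.mul_succ] at h1
    exact h1
  have hJ1 : 1 ≤ J := by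
    rw [hJ, Nat.le_div_iff_mul_le (by omega)]
    omega
  have hJ2 : 2 * J ≤ B * J := Nat.mul_le_mul_right J hB
  have hJm : J + 2 ≤ m := by omega
  have hsize : 4 * (4 * m * y) ^ J ≤ y ^ (m - 1) := by
    have h1 : 4 * m * y ≤ y ^ B := by
      rw [hBdef, pow_succ]
      exact Nat.mul_le_mul_right _ hmA
    have h2 : 4 ≤ y ^ 2 := by nlinarith
    calc 4 * (4 * m * y) ^ J ≤ y ^ 2 * (y ^ B) ^ J :=
          Nat.mul_le_mul h2 (Nat.pow_le_pow_left h1 J)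
      _ = y ^ (2 + B * J) := by rw [← pow_mul, ← pow_add]
      _ ≤ y ^ (m - 1) := Nat.pow_le_pow_right (by omega) (by omega)
  have hgap := gap_of_dvd h hyx hJ1 hJm hsize
  have hKJ : (m - 1) * J ≤ K := Nat.le_log_of_pow_le (by omega) hgap
  have hyK : y ^ K ≤ x := Nat.pow_log_le_self y (by omega)
  have hxK : x < y ^ (K + 1) := Nat.lt_pow_succ_log_self (by omega) x
  obtain ⟨f1, f2, -⟩ := first_of_dvd h hyx
  have hq : 3 * B * (m / (3 * B)) ≤ m := Nat.mul_div_le m (3 * B)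
  have hKbig : 2 * (m + 1) * (m / (3 * B)) ≤ K := by
    refine le_trans ?_ hKJ
    set q := m / (3 * B) with hqdef
    have h1 : m ≤ B * J + B + 2 := by omega
    have h2 : 2 * (m + 1) * (3 * B * q) ≤ 2 * (m + 1) * m := Nat.mul_le_mul_left _ hq
    have h3 : 2 * (m + 1) * m ≤ 3 * B * ((m - 1) * J) := by
      obtain ⟨r, hr⟩ := Nat.exists_eq_add_of_le hm
      obtain ⟨M, hM⟩ : ∃ M, m = M + 1 := ⟨m - 1, by omega⟩
      have h4 : m - 1 = M := by omega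
      rw [h4]
      have h5 : M ≤ B * J + B + 1 := by omega
      have h6 : 3 * M * M ≤ 3 * M * (B * J + B + 1) := Nat.mul_le_mul_left _ h5
      have h7 : 192 * B ≤ M + 1 := by omega
      have h8 : 384 ≤ M + 1 := by omega
      have h9 : M * (192 * B) ≤ M * (M + 1) := Nat.mul_le_mul_left _ h7
      have h10 : M * 384 ≤ M * (M + 1) := Nat.mul_le_mul_left _ h8
      rw [hM]
      nlinarith
    have h4 : 3 * B * (2 * (m + 1) * q) ≤ 3 * B * ((m - 1) * J) := by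
      calc 3 * B * (2 * (m + 1) * q) = 2 * (m + 1) * (3 * B * q) := by ring
        _ ≤ _ := h2.trans h3
    exact Nat.le_of_mul_le_mul_left h4 (by omega)
  refine no_anchor (y := y) (m := m) (a := y) (x := x) (μ := m) (ν := n) (K := K) (R := 3 * B)
    hy2 (by omega) (by omega) le_rfl hxy.le ?_ f1 (Nat.pow_le_pow_right (by omega) (by omega)) ?_
    hKbig hxK ?_
  · rw [← dvd_neg]
    rw [neg_sub]
    exact f2
  · calc y ^ ((m - 1) * K) = (y ^ K) ^ (m - 1) := by rw [← pow_mul, mul_comm]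
      _ ≤ x ^ (m - 1) := Nat.pow_le_pow_left hyK _
      _ ≤ y ^ n := pow_le h
  · calc (4 * (3 * B)) ^ 12 = (12 * B) ^ 12 := by
          congr 1
          ring
      _ ≤ y := hy

end Pool.Agent.MP_88e4f4_nt.TS
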