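import Pool.Agent.MP_88e4f4_nt.TS.F2
import Pool.Agent.MP_88e4f4_nt.TS.M4

set_option autoImplicit false

namespace Pool.Agent.MP_88e4f4_nt.TS

open Pool.Agent.MP_88e4f4_nt.GB

/-- ROW G2. For fixed `y` and `m ≥ 384` there are only finitely many solutions with `y ∣ x`.

Proof. The map `(x, n) ↦ x` is injective on the set (`n` is determined by `y` and
`∑ i < m, x ^ i`: strict monotonicity `rep_strict_len`), so it suffices that the set of the `x` is finite.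
Suppose it is infinite. Choose a solution `(x₁, n₁)` with `x₁ ≥ max y (24 ^ 12)`, put
`K₀ = 2 (m + 1) (m / 6)`, and a solution `(x₂, n₂)` with `x₂ ≥ x₁ ^ K₀ + 1` and `x₂ > x₁`
(`Set.Infinite.exists_gt` or `Set.infinite_of_not_bddAbove`). Let `K = Nat.log x₁ x₂ ≥ K₀`. Apply
`no_anchor` with `R = 6`, `a = x₁`, `x = x₂`, `μ = n₁`, `ν = n₂`: `n₁ < n₂` (`mono_iff`), so by
`first_of_dvd` and `root_unique` (exponent `n₁`) `y ^ n₁ ∣ x₁ - x₂`; `x₁ ^ (m-1) ≤ y ^ n₁` (`pow_le`),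
`x₁ ^ ((m-1) K) = (x₁ ^ K) ^ (m-1) ≤ x₂ ^ (m-1) ≤ y ^ n₂`. -/
theorem finite_fixed (y m : ℕ) (hm : 384 ≤ m) :
    {p : ℕ × ℕ | Sol p.1 y m p.2 ∧ y ∣ p.1}.Finite := by
  by_contra hinf
  set A : Set (ℕ × ℕ) := {p : ℕ × ℕ | Sol p.1 y m p.2 ∧ y ∣ p.1} with hA
  have hinj : Set.InjOn Prod.fst A := by
    rintro ⟨x, n⟩ ⟨h, -⟩ ⟨x', n'⟩ ⟨h', -⟩ hxx
    simp only at h h' hxx
    subst hxx
    obtain ⟨hy, -, -, -, he⟩ := h
    obtain ⟨-, -, -, -, he'⟩ := h'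
    rcases lt_trichotomy n n' with hlt | heq | hgt
    · have := rep_strict_len (k := n) (l := n') hy hlt
      omega
    · rw [heq]
    · have := rep_strict_len (k := n') (l := n) hy hgt
      omega
  have himg : (Prod.fst '' A).Infinite := Set.Infinite.image hinj hinf
  obtain ⟨x₁, ⟨⟨x₁', n₁⟩, ⟨s₁, d₁⟩, hx₁⟩, hgt₁⟩ := himg.exists_gt (max y (24 ^ 12))
  simp only at s₁ d₁ hx₁
  subst hx₁
  set K₀ : ℕ := 2 * (m + 1) * (m / 6) with hK₀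
  obtain ⟨x₂, ⟨⟨x₂', n₂⟩, ⟨s₂, d₂⟩, hx₂⟩, hgt₂⟩ := himg.exists_gt (x₁' ^ K₀ + x₁')
  simp only at s₂ d₂ hx₂
  subst hx₂
  have hyx : y < x₁' := lt_of_le_of_lt (le_max_left _ _) hgt₁
  have h24 : 24 ^ 12 < x₁' := lt_of_le_of_lt (le_max_right _ _) hgt₁
  have hx12 : x₁' < x₂' := lt_of_le_of_lt (Nat.le_add_left _ _) hgt₂
  have hpow : x₁' ^ K₀ ≤ x₂' := (Nat.le_add_right _ _).trans hgt₂.le
  have hy : 2 ≤ y := s₁.1
  have h1x : 1 < x₁' := by omega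
  obtain ⟨f₁, -, -⟩ := first_of_dvd s₁ d₁
  obtain ⟨f₂, -, -⟩ := first_of_dvd s₂ d₂
  have hnn : n₁ < n₂ := (mono_iff s₁ s₂).1 hx12
  refine no_anchor (y := y) (m := m) (a := x₁') (x := x₂') (μ := n₁) (ν := n₂)
    (K := Nat.log x₁' x₂') (R := 6) hy le_rfl (by omega) hyx.le hx12.le ?_ f₂ (pow_le s₁) ?_ ?_ ?_ ?_
  · exact root_unique (by omega) (by exact_mod_cast d₁) (by exact_mod_cast d₂) f₁
      ((pow_dvd_pow _ hnn.le).trans f₂)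
  · calc x₁' ^ ((m - 1) * Nat.log x₁' x₂') = (x₁' ^ Nat.log x₁' x₂') ^ (m - 1) := by
          rw [← pow_mul, mul_comm]
      _ ≤ x₂' ^ (m - 1) := Nat.pow_le_pow_left (Nat.pow_log_le_self _ (by omega)) _
      _ ≤ y ^ n₂ := pow_le s₂
  · exact Nat.le_log_of_pow_le h1x hpow
  · exact Nat.lt_pow_succ_log_self h1x x₂'
  · exact h24.le

end Pool.Agent.MP_88e4f4_nt.TS
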