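import Pool.Agent.MP_88e4f4_nt.TS.G1
import Pool.Agent.MP_88e4f4_nt.TS.G2

set_option autoImplicit false

namespace Pool.Agent.MP_88e4f4_nt.TS

open Pool.Agent.MP_88e4f4_nt.GB

/-- ROW G3. Real form of `no_sol`.

Proof. Suppose `y ≥ (5 log m) ^ 12`. `m ≥ 400`, so `log m ≥ 5.99` and `y ≥ 29 ^ 12 > 10 ^ 17`. Let `A ≥ 1` be
minimal with `4 m ≤ y ^ A` (`Nat.find`, or `A = Nat.clog y (4 m)`, at least 1). If `A = 1`:
`192 * 2 ≤ 400 ≤ m` and `(12 * 2) ^ 12 ≤ 29 ^ 12 ≤ y`. If `A ≥ 2`: `y ^ (A - 1) < 4 m`, so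
`(A - 1) log y ≤ log (4 m)`, `log y ≥ 39`, `A + 1 ≤ 2 + log (4 m) / 39`; since `4 m > y > 10 ^ 17`,
`log m ≥ 37`, hence `12 (A + 1) ≤ 24 + (12 / 39) (log m + 1.4) ≤ 5 log m` and
`192 (A + 1) ≤ 192 (2 + log m) ≤ m`. Use `no_sol`. -/
theorem y_lt {x y m n : ℕ} (h : Sol x y m n) (hyx : y ∣ x) (hm : 400 ≤ m) :
    (y : ℝ) < (5 * Real.log m) ^ 12 := by
  by_contra hcon
  push Not at hcon
  obtain ⟨hy2, hxy, hm3, hn3, -⟩ := id h
  have hl2 := Real.log_two_gt_d9
  have hl2' := Real.log_two_lt_d9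
  set L := Real.log m with hL
  have hmR : (0 : ℝ) < m := by
    have : 0 < m := by omega
    exact_mod_cast this
  have hL8 : 8 * Real.log 2 ≤ L := by
    rw [hL]
    have h1 : ((2 : ℝ) ^ 8) ≤ m := by
      have : (400 : ℝ) ≤ m := by exact_mod_cast hm
      norm_num
      linarith
    have h2 := Real.log_le_log (by norm_num) h1
    rw [Real.log_pow] at h2
    exact_mod_cast h2
  have hL5 : (5.54 : ℝ) ≤ L := by linarith
  have hy27 : 27 ^ 12 ≤ y := by
    have h1 : ((27 : ℝ) ^ 12) ≤ y := by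
      refine le_trans ?_ hcon
      apply pow_le_pow_left₀ (by norm_num)
      linarith
    exact_mod_cast h1
  set A := Nat.clog y (4 * m) with hA
  have hA1 : 1 ≤ A := Nat.clog_pos (by omega) (by omega)
  have hAle : 4 * m ≤ y ^ A := Nat.le_pow_clog (by omega) _
  have hAlt : y ^ (A - 1) < 4 * m := Nat.pow_pred_clog_lt_self (by omega) (by omega)
  rcases Nat.lt_or_ge A 2 with hA2 | hA2
  · have hA' : A = 1 := by omega
    rw [hA'] at hAle
    exact no_sol h hyx le_rfl hAle (by omega) (le_trans (by norm_num) hy27)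
  · obtain ⟨a, ha⟩ : ∃ a, A = a + 1 := ⟨A - 1, by omega⟩
    have ha1 : 1 ≤ a := by omega
    have haA : A - 1 = a := by omega
    rw [haA] at hAlt
    have hy57 : 2 ^ 57 ≤ y := le_trans (by norm_num) hy27
    have h192 : 192 * (A + 1) ≤ m := by
      have h1 : a < 2 ^ a := Nat.lt_two_pow_self
      have h2 : 2 ^ (12 + a) ≤ 2 ^ (57 * a) := Nat.pow_le_pow_right (by norm_num) (by omega)
      have h3 : 2 ^ (57 * a) ≤ y ^ a := by
        rw [pow_mul]
        exact Nat.pow_le_pow_left hy57 a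
      have h4 : 2 ^ (12 + a) = 4096 * 2 ^ a := by
        rw [pow_add]
        norm_num
      omega
    have hlog : (a : ℝ) * Real.log y ≤ 2 * Real.log 2 + L := by
      have h1 : ((y : ℝ) ^ a) ≤ 4 * m := by exact_mod_cast hAlt.le
      have h2 := Real.log_le_log (by
        apply pow_pos
        have : 0 < y := by omega
        exact_mod_cast this) h1
      rw [Real.log_pow, Real.log_mul (by norm_num) hmR.ne', show (4 : ℝ) = 2 ^ 2 by norm_num,
        Real.log_pow] at h2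
      exact_mod_cast h2
    have hlogy : 57 * Real.log 2 ≤ Real.log y := by
      have h1 : ((2 : ℝ) ^ 57) ≤ y := by exact_mod_cast hy57
      have h2 := Real.log_le_log (by norm_num) h1
      rw [Real.log_pow] at h2
      exact_mod_cast h2
    have ha0 : (0 : ℝ) ≤ a := Nat.cast_nonneg a
    have h5 : (a : ℝ) * 39.5 ≤ a * Real.log y := mul_le_mul_of_nonneg_left (by linarith) ha0
    have h6 : (12 * ((A : ℝ) + 1)) ≤ 5 * L := by
      rw [ha]
      push_cast
      linarith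
    have h7 : (12 * (A + 1)) ^ 12 ≤ y := by
      have h8 : (((12 * (A + 1)) ^ 12 : ℕ) : ℝ) ≤ y := by
        push_cast
        exact (pow_le_pow_left₀ (by positivity) h6 12).trans hcon
      exact_mod_cast h8
    exact no_sol h hyx hA1 hAle h192 h7

/-- The main theorem: for a fixed number `m ≥ 400` of digits in the larger base there are only finitely
many solutions for which the smaller base divides the larger one. -/
theorem finite_all (m : ℕ) (hm : 400 ≤ m) :
    {p : ℕ × ℕ × ℕ | Sol p.1 p.2.1 m p.2.2 ∧ p.2.1 ∣ p.1}.Finite := by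
  have h1 : {p : ℕ × ℕ × ℕ | Sol p.1 p.2.1 m p.2.2 ∧ p.2.1 ∣ p.1} ⊆
      ⋃ y ∈ Finset.range (⌈(5 * Real.log m) ^ 12⌉₊),
        (fun q : ℕ × ℕ => (q.1, y, q.2)) '' {p : ℕ × ℕ | Sol p.1 y m p.2 ∧ y ∣ p.1} := by
    rintro ⟨x, y, n⟩ ⟨hs, hd⟩
    simp only [Set.mem_iUnion]
    refine ⟨y, ?_, (x, n), ⟨hs, hd⟩, rfl⟩
    rw [Finset.mem_range]
    exact Nat.lt_ceil.2 (y_lt hs hd hm)
  refine Set.Finite.subset ?_ h1
  apply Set.Finite.biUnion (Finset.finite_toSet _)
  intro y _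
  exact (finite_fixed y m (by omega)).image _

end Pool.Agent.MP_88e4f4_nt.TS
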