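import Pool.Agent.MP_88e4f4_nt.GBasic

set_option autoImplicit false

namespace Pool.Agent.MP_88e4f4_nt.TS

open Pool.Agent.MP_88e4f4_nt.GB

/-- ROW G4. If every prime factor of the smaller base divides the larger base then the smaller base
divides the larger base.

Proof. Let `p` be a prime, `p ^ a ∣ y` with `p ∣ y`; we show `p ^ a ∣ x` (for all `a`; then `y ∣ x` by
`Nat.eq_of_...`/`(Nat.dvd_iff_prime_pow_dvd_dvd x y).2`). Suppose not, let `v < a` be maximal with `p ^ v ∣ x`,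
so `v ≥ 1` (`p ∣ x`) and `p ^ (v+1) ∤ x`. In `rel h : y ^ n (x - 1) = (y - 1) x ^ m + (x - y)` the number
`y ^ n` is divisible by `p ^ (v+1)` (as `v + 1 ≤ a`, `n ≥ 1`), `x ^ m` is divisible by `p ^ (m v)`, hence by
`p ^ (v+1)` (`m ≥ 2`), and `y` is divisible by `p ^ (v+1)`. So `p ^ (v+1) ∣ x`, a contradiction. -/
theorem dvd_of_rad {x y m n : ℕ} (h : Sol x y m n) (hp : ∀ p : ℕ, p.Prime → p ∣ y → p ∣ x) : y ∣ x := by
  have hrel := rel h
  obtain ⟨hy, hxy, hm, hn, -⟩ := h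
  rw [Nat.dvd_iff_prime_pow_dvd_dvd]
  intro p k hpp hk
  induction k with
  | zero => simp
  | succ k ih =>
    have hk1 : p ^ k ∣ y := (pow_dvd_pow p (Nat.le_succ k)).trans hk
    have ihx : p ^ k ∣ x := ih hk1
    have hpy : p ∣ y := (dvd_pow_self p (Nat.succ_ne_zero k)).trans hk
    have hpx : p ∣ x := hp p hpp hpy
    rcases Nat.eq_zero_or_pos k with h0 | hkpos
    · subst h0
      simpa using hpx
    · have h1 : (p : ℤ) ^ (k + 1) ∣ (y : ℤ) := by exact_mod_cast hk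
      have h2 : (p : ℤ) ^ (k + 1) ∣ (y : ℤ) ^ n := h1.trans (dvd_pow_self _ (by omega))
      have h3 : (p : ℤ) ^ (k + 1) ∣ (x : ℤ) ^ m := by
        have h4 : (p : ℤ) ^ k ∣ (x : ℤ) := by exact_mod_cast ihx
        have h5 : ((p : ℤ) ^ k) ^ m ∣ (x : ℤ) ^ m := pow_dvd_pow_of_dvd h4 m
        refine (?_ : (p : ℤ) ^ (k + 1) ∣ ((p : ℤ) ^ k) ^ m).trans h5
        rw [← pow_mul]
        refine pow_dvd_pow _ ?_
        calc k + 1 ≤ k * 2 := by omega
          _ ≤ k * m := Nat.mul_le_mul_left k (by omega)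
      have h6 : (p : ℤ) ^ (k + 1) ∣ (x : ℤ) := by
        have h7 : (x : ℤ) = (y : ℤ) ^ n * ((x : ℤ) - 1) - ((y : ℤ) - 1) * (x : ℤ) ^ m + y := by
          linarith
        rw [h7]
        exact dvd_add (dvd_sub (h2.mul_right _) (h3.mul_left _)) h1
      exact_mod_cast h6

end Pool.Agent.MP_88e4f4_nt.TS
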