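import Pool.Agent.MP_88e4f4_nt.TS.G3
import Pool.Agent.MP_88e4f4_nt.TS.G4

set_option autoImplicit false

namespace Pool.Agent.MP_88e4f4_nt.TS

open Pool.Agent.MP_88e4f4_nt.GB Finset

/-- `(y - 1) R_x(m) + 1 = y ^ n` for a solution. -/
theorem g5_eq {x y m n : ℕ} (h : Sol x y m n) :
    ((y : ℤ) - 1) * ((∑ i ∈ range m, x ^ i : ℕ) : ℤ) + 1 = (y : ℤ) ^ n := by
  obtain ⟨hy, hxy, hm, hn, he⟩ := h
  have h2 := rep_int y n
  rw [← he] at h2
  linarith

/-- If `q` is a prime factor of the smaller base and `gcd(m - 1, q (q - 1)) = 1` then `q` divides the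
larger base. -/
theorem good_prime_dvd {x y m n q : ℕ} (h : Sol x y m n) (hq : q.Prime) (hqy : q ∣ y)
    (hc : Nat.Coprime (m - 1) (q * (q - 1))) : q ∣ x := by
  haveI : Fact q.Prime := ⟨hq⟩
  by_contra hx
  obtain ⟨hy, hxy, hm, hn, he⟩ := id h
  have hx0 : (x : ZMod q) ≠ 0 := by
    rwa [Ne, ZMod.natCast_eq_zero_iff]
  have hy0 : (y : ZMod q) = 0 := (ZMod.natCast_eq_zero_iff y q).2 hqy
  -- `x ^ m = x` modulo `q`
  have hrel := rel h
  have h1 : (x : ZMod q) ^ m = x := by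
    have := congrArg (Int.cast : ℤ → ZMod q) hrel
    push_cast at this
    rw [hy0] at this
    rw [zero_pow (by omega)] at this
    linear_combination this
  have h2 : (x : ZMod q) ^ (m - 1) = 1 := by
    have h3 : (x : ZMod q) ^ (m - 1) * x = 1 * x := by
      rw [← pow_succ, one_mul, Nat.sub_add_cancel (by omega), h1]
    exact mul_right_cancel₀ hx0 h3
  have h4 : (x : ZMod q) ^ (q - 1) = 1 := ZMod.pow_card_sub_one_eq_one hx0
  have h5 : (x : ZMod q) = 1 := by
    have h6 : orderOf (x : ZMod q) ∣ m - 1 := orderOf_dvd_of_pow_eq_one h2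
    have h7 : orderOf (x : ZMod q) ∣ q - 1 := orderOf_dvd_of_pow_eq_one h4
    have h8 : orderOf (x : ZMod q) ∣ Nat.gcd (m - 1) (q * (q - 1)) :=
      Nat.dvd_gcd h6 (h7.mul_left q)
    rw [hc] at h8
    exact orderOf_eq_one_iff.1 (Nat.dvd_one.1 h8)
  have h9 := congrArg (Int.cast : ℤ → ZMod q) (g5_eq h)
  push_cast at h9
  rw [hy0, h5, zero_pow (by omega)] at h9
  simp only [one_pow, sum_const, card_range, nsmul_eq_mul, mul_one] at h9
  have h10 : ((m - 1 : ℕ) : ZMod q) = 0 := by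
    rw [Nat.cast_sub (by omega)]
    push_cast
    linear_combination -h9
  have h11 : q ∣ m - 1 := (ZMod.natCast_eq_zero_iff _ _).1 h10
  have h12 : q ∣ Nat.gcd (m - 1) (q * (q - 1)) := Nat.dvd_gcd h11 (Dvd.intro _ rfl)
  rw [hc] at h12
  exact hq.one_lt.ne' (Nat.dvd_one.1 h12)

/-- The condition on the prime factors of the smaller base implies that it divides the larger one. -/
theorem dvd_of_good {x y m n : ℕ} (h : Sol x y m n)
    (hp : ∀ q : ℕ, q.Prime → q ∣ y → q ∣ x ∨ Nat.Coprime (m - 1) (q * (q - 1))) : y ∣ x :=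
  dvd_of_rad h fun q hq hqy => (hp q hq hqy).elim id (good_prime_dvd h hq hqy)

end Pool.Agent.MP_88e4f4_nt.TS
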